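import Mathlib
import Pool.Agent.TH813.Curve1

/-!
# Polynomial functions and their values at dual numbers
-/

set_option autoImplicit false

open Finset Module

noncomputable section

namespace Pool.Agent.V8H25.AS

open Pool.Agent.TH813.DQ Pool.Agent.TH813.CountF TrivSqZeroExt

variable {K : Type} [Field K] {A : Type} [Field A] [Algebra K A] {ι : Type} [Fintype ι]

/-- `p` is a polynomial function of degree at most `m`, and `h y z` is its value at `y + ε z` -/
def IsD (m : ℕ) (p : (ι → K) → A) (h : (ι → K) → (ι → K) → DualNumber A) : Prop :=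
  (∀ y z, (h y z).fst = p y) ∧ IsDQ m p (fun y z => (h y z).snd)

omit [Fintype ι] in
theorem IsD.const (m : ℕ) (c : A) :
    IsD (K := K) (ι := ι) m (fun _ => c) (fun _ _ => TrivSqZeroExt.inl c) :=
  ⟨fun _ _ => rfl, IsDQ.const m c⟩

theorem IsD.lin (f : (ι → K) →ₗ[K] A) :
    IsD 1 (fun x => f x) (fun y z => TrivSqZeroExt.inl (f y) + TrivSqZeroExt.inr (f z)) :=
  ⟨fun _ _ => by simp, (IsDQ.lin f).congr (fun _ => rfl) (fun _ _ => by simp)⟩

omit [Fintype ι] in
theorem IsD.mono {m m' : ℕ} (hm : m ≤ m') {p : (ι → K) → A}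
    {h : (ι → K) → (ι → K) → DualNumber A} (hp : IsD m p h) : IsD m' p h :=
  ⟨hp.1, hp.2.mono hm⟩

omit [Fintype ι] in
theorem IsD.add {m : ℕ} {p q : (ι → K) → A} {h g : (ι → K) → (ι → K) → DualNumber A}
    (hp : IsD m p h) (hq : IsD m q g) : IsD m (fun x => p x + q x) (fun y z => h y z + g y z) :=
  ⟨fun y z => by rw [TrivSqZeroExt.fst_add, hp.1, hq.1],
    (hp.2.add hq.2).congr (fun _ => rfl) (fun _ _ => TrivSqZeroExt.snd_add _ _)⟩

omit [Fintype ι] in
theorem IsD.mul {a b : ℕ} {p q : (ι → K) → A} {h g : (ι → K) → (ι → K) → DualNumber A}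
    (hp : IsD a p h) (hq : IsD b q g) :
    IsD (a + b) (fun x => p x * q x) (fun y z => h y z * g y z) :=
  ⟨fun y z => by rw [TrivSqZeroExt.fst_mul, hp.1, hq.1],
    (hp.2.mul hq.2).congr (fun _ => rfl) (fun y z => by
      rw [TrivSqZeroExt.snd_mul, hp.1, hq.1]
      simp only [smul_eq_mul, MulOpposite.smul_eq_mul_unop, MulOpposite.unop_op]
      ring)⟩

omit [Fintype ι] in
theorem IsD.sum {κ : Type*} (s : Finset κ) {m : ℕ} {p : κ → (ι → K) → A}
    {h : κ → (ι → K) → (ι → K) → DualNumber A} (hp : ∀ k ∈ s, IsD m (p k) (h k)) :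
    IsD m (fun x => ∑ k ∈ s, p k x) (fun y z => ∑ k ∈ s, h k y z) := by
  classical
  induction s using Finset.induction_on with
  | empty =>
    simp only [sum_empty]
    exact IsD.const m 0
  | insert k s hk ih =>
    simp only [sum_insert hk]
    exact (hp k (mem_insert_self _ _)).add (ih (fun j hj => hp j (mem_insert_of_mem hj)))

omit [Fintype ι] in
theorem IsD.prod {κ : Type*} (s : Finset κ) {m : κ → ℕ} {p : κ → (ι → K) → A}
    {h : κ → (ι → K) → (ι → K) → DualNumber A} (hp : ∀ k ∈ s, IsD (m k) (p k) (h k)) :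
    IsD (∑ k ∈ s, m k) (fun x => ∏ k ∈ s, p k x) (fun y z => ∏ k ∈ s, h k y z) := by
  classical
  induction s using Finset.induction_on with
  | empty =>
    simp only [prod_empty]
    exact IsD.const _ 1
  | insert k s hk ih =>
    simp only [prod_insert hk, sum_insert hk]
    exact (hp k (mem_insert_self _ _)).mul (ih (fun j hj => hp j (mem_insert_of_mem hj)))

omit [Fintype ι] in
theorem IsD.pow {m : ℕ} {p : (ι → K) → A} {h : (ι → K) → (ι → K) → DualNumber A}
    (hp : IsD m p h) (n : ℕ) : IsD (n * m) (fun x => p x ^ n) (fun y z => h y z ^ n) := by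
  have h1 := IsD.prod (K := K) (ι := ι) (range n) (m := fun _ => m) (p := fun _ => p)
    (h := fun _ => h) (fun _ _ => hp)
  simpa using h1

section poly

variable {σ : Type} [Fintype σ] {B : Type} [Field B] [Algebra B A]

/-- constants in the dual numbers -/
def cst (B A : Type) [Field B] [Field A] [Algebra B A] : B →+* DualNumber A :=
  (TrivSqZeroExt.inlHom A A).comp (algebraMap B A)

theorem dq_mv (μ : σ → (ι → K) →ₗ[K] A) {P : MvPolynomial σ B} {m : ℕ}
    (h : P.totalDegree ≤ m) :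
    IsD m (fun x => MvPolynomial.eval₂Hom (algebraMap B A) (fun j => μ j x) P)
      (fun y z => MvPolynomial.eval₂Hom (cst B A)
        (fun j => TrivSqZeroExt.inl (μ j y) + TrivSqZeroExt.inr (μ j z)) P) := by
  have e1 : ∀ x, MvPolynomial.eval₂Hom (algebraMap B A) (fun j => μ j x) P =
      ∑ s ∈ P.support, algebraMap B A (P.coeff s) * ∏ j, μ j x ^ s j := by
    intro x
    rw [MvPolynomial.coe_eval₂Hom, MvPolynomial.eval₂_eq']
  have e2 : ∀ y z, MvPolynomial.eval₂Hom (cst B A)
      (fun j => TrivSqZeroExt.inl (μ j y) + TrivSqZeroExt.inr (μ j z)) P =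
      ∑ s ∈ P.support, cst B A (P.coeff s) *
        ∏ j, (TrivSqZeroExt.inl (μ j y) + TrivSqZeroExt.inr (μ j z) : DualNumber A) ^ s j := by
    intro y z
    rw [MvPolynomial.coe_eval₂Hom, MvPolynomial.eval₂_eq']
  simp only [e1, e2]
  refine IsD.sum _ (fun s hs => ?_)
  have h1 := IsD.prod (K := K) (ι := ι) (univ : Finset σ) (m := fun j => s j * 1)
    (p := fun j x => μ j x ^ s j)
    (h := fun j y z => (TrivSqZeroExt.inl (μ j y) + TrivSqZeroExt.inr (μ j z)) ^ s j)
    (fun j _ => (IsD.lin (μ j)).pow (s j))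
  have h2 := (IsD.const (K := K) (ι := ι) 0 (algebraMap B A (P.coeff s))).mul h1
  refine h2.mono ?_
  have h3 := (MvPolynomial.le_totalDegree hs).trans h
  rw [Finsupp.sum_fintype _ _ (fun _ => rfl)] at h3
  simpa using h3

end poly

end Pool.Agent.V8H25.AS
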