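import Mathlib
import Pool.Agent.V8H25.AS.Du
import Pool.Agent.TH813.CurveA

/-!
# Tangent vectors
-/

set_option autoImplicit false

open Finset Module
open scoped PeriodPair

noncomputable section

namespace Pool.Agent.V8H25.AS

open Pool.Agent.W252 Pool.Agent.W669.Gel
open Pool.Agent.TH813.Core (dlog_eq_zero)
open Pool.Agent.TH813.DQ Pool.Agent.TH813.ZtFin Pool.Agent.TH813.CountF Pool.Agent.TH813.Ell
open Pool.Agent.TH813.MixSys Pool.Agent.TH813.CurveG
open Pool.Agent.TH813.Rel (DF bracket_mem)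

variable {F : IntermediateField ℚ ℂ} {n : ℕ}

/-! ## the forms -/

theorem dlog_comm (D D' : Derivation ℚ ℂ ℂ) (u : ℂ) :
    dlog ⁅D, D'⁆ u = D (dlog D' u) - D' (dlog D u) := by
  unfold dlog
  have he := Complex.exp_ne_zero u
  rw [Derivation.commutator_apply, Derivation.leibniz_div, Derivation.leibniz_div]
  simp only [smul_eq_mul]
  field_simp
  ring

theorem om_comm {L : PeriodPair} {D D' : Derivation ℚ ℂ ℂ} (h2 : D L.g₂ = 0) (h3 : D L.g₃ = 0)
    (h2' : D' L.g₂ = 0) (h3' : D' L.g₃ = 0) (u : ℂ) :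
    om L ⁅D, D'⁆ u = D (om L D' u) - D' (om L D u) := by
  by_cases hu : u ∈ L.lattice
  · rw [om_of_mem L _ hu, om_of_mem L _ hu, om_of_mem L _ hu, map_zero, map_zero, sub_zero]
  have hc := L.derivWeierstrassP_sq _ hu
  have hk : ∀ D : Derivation ℚ ℂ ℂ, D L.g₂ = 0 → D L.g₃ = 0 →
      2 * ℘'[L] u * D (℘'[L] u) = (12 * ℘[L] u ^ 2 - L.g₂) * D (℘[L] u) := by
    intro D h2 h3
    have h := congrArg D hc
    rw [map_sub, map_sub, Derivation.leibniz_pow, Derivation.leibniz, Derivation.leibniz,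
      Derivation.leibniz_pow, h2, h3] at h
    have h4 : D (4 : ℂ) = 0 := by
      have := D.map_natCast 4
      exact_mod_cast this
    rw [h4] at h
    simp only [smul_eq_mul, nsmul_eq_mul] at h
    push_cast at h
    linear_combination h
  unfold om
  by_cases hY : ℘'[L] u = 0
  · rw [hY]
    simp
  · rw [Derivation.commutator_apply, Derivation.leibniz_div, Derivation.leibniz_div]
    simp only [smul_eq_mul]
    have e1 := hk D h2 h3
    have e2 := hk D' h2' h3'
    have e3 : D (℘'[L] u) * D' (℘[L] u) = D' (℘'[L] u) * D (℘[L] u) := by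
      have h : 2 * ℘'[L] u ≠ 0 := mul_ne_zero two_ne_zero hY
      apply mul_left_cancel₀ h
      linear_combination D' (℘[L] u) * e1 - D (℘[L] u) * e2
    field_simp
    linear_combination e3

theorem ell_comm {T : Typ} (hT : InF F T) {D D' : Derivation ℚ ℂ ℂ} (hD : D ∈ DF F)
    (hD' : D' ∈ DF F) (u : ℂ) :
    ell T ⁅D, D'⁆ u = D (ell T D' u) - D' (ell T D u) := by
  cases T with
  | none => exact dlog_comm D D' u
  | some L => exact om_comm (hD _ hT.1) (hD _ hT.2) (hD' _ hT.1) (hD' _ hT.2) u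

theorem ell_smul (T : Typ) (c : ℂ) (D : Derivation ℚ ℂ ℂ) (u : ℂ) :
    ell T (c • D) u = c * ell T D u := by
  cases T with
  | none =>
    change dlog (c • D) u = c * dlog D u
    unfold dlog
    rw [Derivation.smul_apply, smul_eq_mul, mul_div_assoc]
  | some L =>
    change om L (c • D) u = c * om L D u
    unfold om
    rw [Derivation.smul_apply, smul_eq_mul, mul_div_assoc]

/-! ## dual numbers -/

/-- a dual number -/
def du (a b : ℂ) : DualNumber ℂ := TrivSqZeroExt.inl a + TrivSqZeroExt.inr b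

theorem du_fst (a b : ℂ) : (du a b).fst = a := by simp [du]

theorem du_snd (a b : ℂ) : (du a b).snd = b := by simp [du]

theorem snd_mul' (a b : DualNumber ℂ) : (a * b).snd = a.fst * b.snd + a.snd * b.fst := by
  rw [TrivSqZeroExt.snd_mul]
  simp only [smul_eq_mul, MulOpposite.smul_eq_mul_unop, MulOpposite.unop_op]

theorem snd_sum {κ : Type} (s : Finset κ) (f : κ → DualNumber ℂ) : (∑ j ∈ s, f j).snd =
    ∑ j ∈ s, (f j).snd := map_sum (TrivSqZeroExt.sndHom ℂ ℂ) f _

theorem fst_sum {κ : Type} (s : Finset κ) (f : κ → DualNumber ℂ) : (∑ j ∈ s, f j).fst =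
    ∑ j ∈ s, (f j).fst := map_sum (TrivSqZeroExt.fstHom ℂ ℂ ℂ) f _

/-- the homomorphism of a derivation -/
def thD (D : Derivation ℚ ℂ ℂ) : ℂ →+* DualNumber ℂ where
  toFun c := du c (D c)
  map_one' := by
    apply TrivSqZeroExt.ext
    · rw [du_fst, TrivSqZeroExt.fst_one]
    · rw [du_snd, TrivSqZeroExt.snd_one, Derivation.map_one_eq_zero]
  map_mul' a b := by
    apply TrivSqZeroExt.ext
    · rw [du_fst, TrivSqZeroExt.fst_mul, du_fst, du_fst]
    · rw [du_snd, snd_mul', du_fst, du_fst, du_snd, du_snd, Derivation.leibniz]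
      simp only [smul_eq_mul]
      ring
  map_zero' := by
    apply TrivSqZeroExt.ext
    · rw [du_fst, TrivSqZeroExt.fst_zero]
    · rw [du_snd, TrivSqZeroExt.snd_zero, map_zero]
  map_add' a b := by
    apply TrivSqZeroExt.ext
    · rw [du_fst, TrivSqZeroExt.fst_add, du_fst, du_fst]
    · rw [du_snd, TrivSqZeroExt.snd_add, du_snd, du_snd, map_add]

theorem thD_apply (D : Derivation ℚ ℂ ℂ) (c : ℂ) : thD D c = du c (D c) := rfl

theorem sum_apply' {m : ℕ} (c : Fin m → ℂ) (Dd : Fin m → Derivation ℚ ℂ ℂ) (x : ℂ) :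
    (∑ a, c a • Dd a : Derivation ℚ ℂ ℂ) x = ∑ a, c a * Dd a x := by
  have h := map_sum (Derivation.coeFnAddMonoidHom (R := ℚ) (A := ℂ) (M := ℂ))
    (fun a => c a • Dd a) univ
  have h2 := congrFun h x
  rw [Finset.sum_apply] at h2
  exact h2

/-! ## polynomials -/

/-- evaluation of the polynomials in `d` and `X` at `X = φ(X)` -/
def phd {A : Type} [Field A] (φ : MvPolynomial (Fin n) F →+* A) :
    MvPolynomial (Fin n ⊕ Fin n) F →+* MvPolynomial (Fin n) A :=
  MvPolynomial.eval₂Hom (MvPolynomial.C.comp (φ.comp MvPolynomial.C))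
    (Sum.elim MvPolynomial.X (fun k => MvPolynomial.C (φ (MvPolynomial.X k))))

/-- evaluation at numbers -/
def ph0 (F : IntermediateField ℚ ℂ) {n : ℕ} (z : Fin n → ℂ) : MvPolynomial (Fin n) F →+* ℂ :=
  MvPolynomial.eval₂Hom (algebraMap F ℂ) z

/-- the generic linear form -/
def gl {A : Type} [Field A] (L : Fin n → A) : MvPolynomial (Fin n) A :=
  ∑ i, MvPolynomial.C (L i) * MvPolynomial.X i

/-- a polynomial which does not vanish at a point does not vanish on most of a line -/
theorem exists_line {δ : MvPolynomial (Fin n) ℂ} {v : Fin n → ℂ} (hv : MvPolynomial.eval v δ ≠ 0)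
    (u : Fin n → ℂ) : ∃ s : ℂ, s ≠ 0 ∧ MvPolynomial.eval (fun i => s * u i + v i) δ ≠ 0 := by
  let p : Polynomial ℂ := MvPolynomial.eval₂Hom Polynomial.C
    (fun i => Polynomial.X * Polynomial.C (u i) + Polynomial.C (v i)) δ
  have hp : ∀ s : ℂ, p.eval s = MvPolynomial.eval (fun i => s * u i + v i) δ := by
    intro s
    have h : (Polynomial.evalRingHom s).comp (MvPolynomial.eval₂Hom Polynomial.C
        (fun i => Polynomial.X * Polynomial.C (u i) + Polynomial.C (v i))) =
        (MvPolynomial.eval (fun i => s * u i + v i) : MvPolynomial (Fin n) ℂ →+* ℂ) := by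
      apply MvPolynomial.ringHom_ext
      · intro c
        simp
      · intro i
        simp only [RingHom.comp_apply, MvPolynomial.eval₂Hom_X', Polynomial.coe_evalRingHom,
          Polynomial.eval_add, Polynomial.eval_mul, Polynomial.eval_X, Polynomial.eval_C,
          MvPolynomial.eval_X]
    exact congrArg (fun f => f δ) h
  have hp0 : p ≠ 0 := by
    intro h
    apply hv
    have h1 := hp 0
    rw [h, Polynomial.eval_zero] at h1
    simp only [zero_mul, zero_add] at h1
    exact h1.symm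
  obtain ⟨s, hs⟩ := Infinite.exists_notMem_finset (insert (0 : ℂ) p.roots.toFinset)
  rw [Finset.mem_insert, not_or, Multiset.mem_toFinset, Polynomial.mem_roots hp0] at hs
  refine ⟨s, hs.1, ?_⟩
  rw [← hp]
  exact hs.2

/-- **The tangent vectors, first part.** -/
theorem tangent1 {T : Typ} (hT : InF F T) {Q : Polynomial (MvPolynomial (Fin n ⊕ Fin n) F)}
    {z τ : Fin n → ℂ} {z₀ τ₀ : ℂ} {L : Fin n → ℂ} {Dd : Fin n → Derivation ℚ ℂ ℂ}
    (hDd : ∀ a, Dd a ∈ DF F) (hdual : ∀ a i, Dd a (z i) = if a = i then 1 else 0)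
    (hω : ∀ D ∈ DF F, ell T D z₀ = ∑ i, L i * D (z i))
    (hLk : ∀ D ∈ DF F, (∀ i, D (z i) = 0) → ∀ k, D (L k) = 0)
    (h0 : Q.eval₂ (phd (ph0 F z)) (gl L) = 0)
    (h1 : (Polynomial.derivative Q).eval₂ (phd (ph0 F z)) (gl L) ≠ 0)
    (hG : ∀ D ∈ DF F, Q.eval₂ (MvPolynomial.eval₂Hom (cst F ℂ)
      (Sum.elim (fun i => du (D (z i)) (D (τ i))) (fun k => du (z k) (τ k))))
      (du (ell T D z₀) (ell T D τ₀)) = 0) :
    ∀ D ∈ DF F, ell T D τ₀ = D (∑ k, L k * τ k) := by
  classical
  set Dτ : Derivation ℚ ℂ ℂ := ∑ a, τ a • Dd a with hDτ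
  have hDτF : Dτ ∈ DF F := Submodule.sum_mem _ (fun a _ => Submodule.smul_mem _ _ (hDd a))
  have hDz : ∀ i, Dτ (z i) = τ i := by
    intro i
    rw [hDτ, sum_apply']
    simp only [hdual, mul_ite, mul_one, mul_zero, sum_ite_eq', mem_univ, if_true]
  set δ := (Polynomial.derivative Q).eval₂ (phd (ph0 F z)) (gl L) with hδ
  -- good derivations
  have hgood : ∀ D ∈ DF F, MvPolynomial.eval (fun i => D (z i)) δ ≠ 0 →
      ell T D τ₀ = ∑ i, (L i * D (τ i) + Dτ (L i) * D (z i)) := by
    intro D hD hne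
    let Θ : MvPolynomial (Fin n) ℂ →+* DualNumber ℂ := MvPolynomial.eval₂Hom (thD Dτ)
      (fun i => du (D (z i)) (D (τ i)))
    let g : MvPolynomial (Fin n ⊕ Fin n) F →+* DualNumber ℂ := MvPolynomial.eval₂Hom (cst F ℂ)
      (Sum.elim (fun i => du (D (z i)) (D (τ i))) (fun k => du (z k) (τ k)))
    have hg : Θ.comp (phd (ph0 F z)) = g := by
      apply MvPolynomial.ringHom_ext
      · intro c
        have hc : Dτ (c : ℂ) = 0 := hDτF _ c.2
        simp only [Θ, g, phd, ph0, cst, RingHom.comp_apply, MvPolynomial.eval₂Hom_C]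
        rw [thD_apply]
        change du (c : ℂ) (Dτ (c : ℂ)) = TrivSqZeroExt.inl (c : ℂ)
        rw [hc]
        simp [du]
      · rintro (i | k)
        · simp only [Θ, g, phd, RingHom.comp_apply, MvPolynomial.eval₂Hom_X', Sum.elim_inl]
        · simp only [Θ, g, phd, ph0, RingHom.comp_apply, MvPolynomial.eval₂Hom_X', Sum.elim_inr,
            MvPolynomial.eval₂Hom_C]
          rw [thD_apply, hDz]
    have hΘ : Θ (gl L) = du (∑ i, L i * D (z i)) (∑ i, (L i * D (τ i) + Dτ (L i) * D (z i))) := by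
      unfold gl
      rw [map_sum]
      apply TrivSqZeroExt.ext
      · rw [fst_sum, du_fst]
        refine sum_congr rfl (fun i _ => ?_)
        rw [map_mul, TrivSqZeroExt.fst_mul]
        simp only [Θ, MvPolynomial.eval₂Hom_C, MvPolynomial.eval₂Hom_X', thD_apply, du_fst]
      · rw [snd_sum, du_snd]
        refine sum_congr rfl (fun i _ => ?_)
        rw [map_mul, snd_mul']
        simp only [Θ, MvPolynomial.eval₂Hom_C, MvPolynomial.eval₂Hom_X', thD_apply, du_fst,
          du_snd]
    have e1 : Q.eval₂ g (Θ (gl L)) = 0 := by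
      rw [← hg, ← Polynomial.hom_eval₂, h0, map_zero]
    have e2 := hG D hD
    set c : ℂ := ell T D τ₀ - ∑ i, (L i * D (τ i) + Dτ (L i) * D (z i)) with hc
    have e3 : du (ell T D z₀) (ell T D τ₀) = Θ (gl L) + TrivSqZeroExt.inr c := by
      rw [hΘ, hω D hD]
      apply TrivSqZeroExt.ext
      · rw [TrivSqZeroExt.fst_add, TrivSqZeroExt.fst_inr, du_fst, du_fst, add_zero]
      · rw [TrivSqZeroExt.snd_add, TrivSqZeroExt.snd_inr, du_snd, du_snd, hc]
        ring
    change Q.eval₂ g _ = 0 at e2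
    rw [e3, Polynomial.eval₂_eq_eval_map, Polynomial.eval_add_of_sq_eq_zero _ _ _ (by
      rw [sq, TrivSqZeroExt.inr_mul_inr]), ← Polynomial.eval₂_eq_eval_map, e1, zero_add,
      Polynomial.derivative_map, ← Polynomial.eval₂_eq_eval_map] at e2
    have e4 : (Polynomial.derivative Q).eval₂ g (Θ (gl L)) = Θ δ := by
      rw [← hg, ← Polynomial.hom_eval₂]
    rw [e4] at e2
    have e5 : (Θ δ).fst = MvPolynomial.eval (fun i => D (z i)) δ := by
      have h : ((TrivSqZeroExt.fstHom ℂ ℂ ℂ).toRingHom).comp Θ =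
          (MvPolynomial.eval (fun i => D (z i)) : MvPolynomial (Fin n) ℂ →+* ℂ) := by
        apply MvPolynomial.ringHom_ext
        · intro c
          simp only [Θ, RingHom.comp_apply, MvPolynomial.eval₂Hom_C, MvPolynomial.eval_C]
          exact du_fst _ _
        · intro i
          simp only [Θ, RingHom.comp_apply, MvPolynomial.eval₂Hom_X', MvPolynomial.eval_X]
          exact du_fst _ _
      exact congrArg (fun f => f δ) h
    have e6 := congrArg TrivSqZeroExt.snd e2
    rw [snd_mul', TrivSqZeroExt.snd_inr, TrivSqZeroExt.fst_inr, mul_zero, add_zero, e5,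
      TrivSqZeroExt.snd_zero] at e6
    have e7 := (mul_eq_zero.1 e6).resolve_left hne
    exact sub_eq_zero.1 e7
  -- all derivations
  obtain ⟨v, hv⟩ : ∃ v : Fin n → ℂ, MvPolynomial.eval v δ ≠ 0 := by
    by_contra hcon
    push Not at hcon
    apply h1
    apply MvPolynomial.funext
    intro x
    rw [hcon, map_zero]
  have hall : ∀ D ∈ DF F, ell T D τ₀ = ∑ i, (L i * D (τ i) + Dτ (L i) * D (z i)) := by
    intro D hD
    set D₀ : Derivation ℚ ℂ ℂ := ∑ a, v a • Dd a with hD₀
    have hD₀F : D₀ ∈ DF F := Submodule.sum_mem _ (fun a _ => Submodule.smul_mem _ _ (hDd a))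
    have hD₀z : ∀ i, D₀ (z i) = v i := by
      intro i
      rw [hD₀, sum_apply']
      simp only [hdual, mul_ite, mul_one, mul_zero, sum_ite_eq', mem_univ, if_true]
    obtain ⟨s, hs0, hs⟩ := exists_line hv (fun i => D (z i))
    have h2 := hgood D₀ hD₀F (by simp only [hD₀z]; exact hv)
    have h3 := hgood (s • D + D₀) (Submodule.add_mem _ (Submodule.smul_mem _ _ hD) hD₀F) (by
      simp only [Derivation.add_apply, Derivation.smul_apply, smul_eq_mul, hD₀z]
      exact hs)
    rw [ell_add_der, ell_smul, h2] at h3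
    simp only [Derivation.add_apply, Derivation.smul_apply, smul_eq_mul] at h3
    have h4 : ∑ i, (L i * (s * D (τ i) + D₀ (τ i)) + Dτ (L i) * (s * D (z i) + D₀ (z i))) =
        s * ∑ i, (L i * D (τ i) + Dτ (L i) * D (z i)) +
          ∑ i, (L i * D₀ (τ i) + Dτ (L i) * D₀ (z i)) := by
      rw [mul_sum, ← sum_add_distrib]
      exact sum_congr rfl (fun i _ => by ring)
    rw [h4] at h3
    exact mul_left_cancel₀ hs0 (add_right_cancel h3)
  -- closed
  have hDL : ∀ D ∈ DF F, ∀ k, D (L k) = ∑ i, D (z i) * Dd i (L k) := by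
    intro D hD k
    have h2 := hLk (D - ∑ a, D (z a) • Dd a) (Submodule.sub_mem _ hD
      (Submodule.sum_mem _ (fun a _ => Submodule.smul_mem _ _ (hDd a)))) (fun i => by
        rw [Derivation.sub_apply, sum_apply']
        simp only [hdual, mul_ite, mul_one, mul_zero, sum_ite_eq', mem_univ, if_true, sub_self]) k
    rw [Derivation.sub_apply, sum_apply', sub_eq_zero] at h2
    exact h2
  have hcl : ∀ i k, Dd k (L i) = Dd i (L k) := by
    intro i k
    have e : ∀ a, ell T (Dd a) z₀ = L a := by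
      intro a
      rw [hω _ (hDd a)]
      simp only [hdual, mul_ite, mul_one, mul_zero, sum_ite_eq, mem_univ, if_true]
    have h2 := ell_comm hT (hDd k) (hDd i) z₀
    rw [e, e, hω _ (bracket_mem F (hDd k) (hDd i))] at h2
    have h3 : ∀ l, ⁅Dd k, Dd i⁆ (z l) = 0 := by
      intro l
      rw [Derivation.commutator_apply, hdual, hdual]
      split_ifs <;> simp
    simp only [h3, mul_zero, sum_const_zero] at h2
    exact (sub_eq_zero.1 h2.symm)
  intro D hD
  rw [hall D hD, map_sum, sum_add_distrib]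
  have h5 : ∀ k, D (L k * τ k) = L k * D (τ k) + τ k * D (L k) := by
    intro k
    rw [Derivation.leibniz]
    rfl
  simp only [h5, sum_add_distrib]
  congr 1
  have h6 : ∀ i, Dτ (L i) = ∑ k, τ k * Dd k (L i) := by
    intro i
    rw [hDτ, sum_apply']
  simp only [h6, hDL D hD, sum_mul, mul_sum]
  rw [sum_comm]
  refine sum_congr rfl (fun k _ => sum_congr rfl (fun i _ => ?_))
  rw [hcl i k]
  ring

/-- the constants of a derivation -/
def kerD (D : Derivation ℚ ℂ ℂ) : IntermediateField ℚ ℂ where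
  carrier := {w | D w = 0}
  mul_mem' := by
    intro a b ha hb
    change D (a * b) = 0
    rw [Derivation.leibniz, show D a = 0 from ha, show D b = 0 from hb, smul_zero, smul_zero,
      add_zero]
  add_mem' := by
    intro a b ha hb
    change D (a + b) = 0
    rw [map_add, show D a = 0 from ha, show D b = 0 from hb, add_zero]
  algebraMap_mem' := fun r => D.map_algebraMap r
  inv_mem' := by
    intro a ha
    change D a⁻¹ = 0
    rw [Derivation.leibniz_inv, show D a = 0 from ha, smul_zero]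

theorem InF.mono {F F' : IntermediateField ℚ ℂ} (h : F ≤ F') {T : Typ} (hT : InF F T) :
    InF F' T := by
  cases T with
  | none => trivial
  | some L => exact ⟨h hT.1, h hT.2⟩

/-- **The tangent vectors are zero.** -/
theorem tangent2 {T : Fin n → Typ} (hT : ∀ j, InF F (T j)) {z τ : Fin n → ℂ}
    {L : Fin n → Fin n → ℂ} {Dd : Fin n → Derivation ℚ ℂ ℂ} (hDd : ∀ a, Dd a ∈ DF F)
    (hdual : ∀ a i, Dd a (z i) = if a = i then 1 else 0)
    (hω : ∀ D ∈ DF F, ∀ j, ell (T j) D (z j) = ∑ i, L j i * D (z i))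
    (hk : (∀ j, Null F (T j) (τ j)) → ∀ a k, Dd a (τ k) = 0)
    (hinj : (∀ j, Null F (T j) (τ j)) → (∀ j, ∑ k, L j k * τ k = 0) → τ = 0)
    (hτ : ∀ j, ∀ D ∈ DF F, ell (T j) D (τ j) = D (∑ k, L j k * τ k)) : τ = 0 := by
  classical
  have h1 : ∀ j, ∀ D ∈ DF F, ell (T j) D (τ j) = 0 := fun j =>
    ell_exact (hT j) (f := ∑ k, L j k * τ k) (fun D hD => (hτ j D hD).symm)
  have hnull : ∀ j, Null F (T j) (τ j) := fun j => null_of_ell (hT j) (h1 j)
  have hf : ∀ j, ∀ D ∈ DF F, D (∑ k, L j k * τ k) = 0 := fun j D hD => by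
    rw [← hτ j D hD, h1 j D hD]
  have hkill := hk hnull
  refine hinj hnull (fun j => ?_)
  by_contra hfj
  obtain ⟨l, hl⟩ : ∃ l, τ l ≠ 0 := by
    by_contra hcon
    push Not at hcon
    apply hfj
    exact sum_eq_zero (fun k _ => by rw [hcon k, mul_zero])
  set Dτ : Derivation ℚ ℂ ℂ := ∑ a, τ a • Dd a with hDτ
  have hDτF : Dτ ∈ DF F := Submodule.sum_mem _ (fun a _ => Submodule.smul_mem _ _ (hDd a))
  have hDz : ∀ i, Dτ (z i) = τ i := by
    intro i
    rw [hDτ, sum_apply']
    simp only [hdual, mul_ite, mul_one, mul_zero, sum_ite_eq', mem_univ, if_true]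
  have hDtau : ∀ k, Dτ (τ k) = 0 := by
    intro k
    rw [hDτ, sum_apply']
    exact sum_eq_zero (fun a _ => by rw [hkill, mul_zero])
  have hle : F ≤ kerD Dτ := fun x hx => hDτF x hx
  have hmem : Dτ ∈ DF (kerD Dτ) := fun x hx => hx
  have hDFle : ∀ D ∈ DF (kerD Dτ), D ∈ DF F := fun D hD x hx => hD x (hle hx)
  have h2 : ∀ D ∈ DF (kerD Dτ), D ((∑ k, L j k * τ k) * z l / τ l) = ell (T j) D (z j) := by
    intro D hD
    have e1 : D (τ l) = 0 := hD _ (hDtau l)
    have e2 : ∀ k, τ k * D (z l) = τ l * D (z k) := by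
      intro k
      have h3 : D (τ k * z l - τ l * z k) = 0 := by
        apply hD
        change Dτ (τ k * z l - τ l * z k) = 0
        rw [map_sub, Derivation.leibniz, Derivation.leibniz, hDtau, hDtau, hDz, hDz]
        simp only [smul_eq_mul]
        ring
      rw [map_sub, Derivation.leibniz, Derivation.leibniz, hD _ (hDtau k), e1] at h3
      simp only [smul_eq_mul, mul_zero, add_zero] at h3
      linear_combination h3
    have e3 : D (∑ k, L j k * τ k) = 0 := hf j D (hDFle D hD)
    rw [Derivation.leibniz_div, Derivation.leibniz, e3, e1, hω D (hDFle D hD)]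
    simp only [smul_eq_mul, mul_zero, add_zero, sub_zero]
    have e4 : τ l * ∑ i, L j i * D (z i) = (∑ k, L j k * τ k) * D (z l) := by
      rw [mul_sum, sum_mul]
      refine sum_congr rfl (fun k _ => ?_)
      rw [mul_assoc, e2 k]
      ring
    rw [← e4]
    field_simp
  have h3 := ell_exact (InF.mono hle (hT j)) h2 Dτ hmem
  rw [hω Dτ hDτF] at h3
  simp only [hDz] at h3
  exact hfj h3

end Pool.Agent.V8H25.AS
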