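import Mathlib
import Pool.Agent.V8H25.AS.Tan

/-!
# The count
-/

set_option autoImplicit false

open Finset Module

noncomputable section

namespace Pool.Agent.V8H25.AS

open Pool.Agent.W252 Pool.Agent.W669.Gel
open Pool.Agent.TH813.DQ Pool.Agent.TH813.ZtFin Pool.Agent.TH813.CountF Pool.Agent.TH813.Ell
open Pool.Agent.TH813.MixSys Pool.Agent.TH813.CurveG
open Pool.Agent.TH813.Rel (DF bracket_mem)

variable {F : IntermediateField ℚ ℂ} {n : ℕ}

/-! ## the total degree -/

section ts

variable {k : Type} [Field k] {σ : Type}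

/-- polynomials in one more variable -/
def ts (k : Type) [Field k] (σ : Type) :
    Polynomial (MvPolynomial σ k) ≃ₐ[k] MvPolynomial (Option σ) k :=
  (MvPolynomial.optionEquivLeft k σ).symm

theorem ts_X : ts k σ Polynomial.X = MvPolynomial.X none := by
  unfold ts
  rw [AlgEquiv.symm_apply_eq, MvPolynomial.optionEquivLeft_X_none]

theorem ts_C (p : MvPolynomial σ k) : ts k σ (Polynomial.C p) = MvPolynomial.rename some p := by
  unfold ts
  rw [AlgEquiv.symm_apply_eq]
  have h : ((MvPolynomial.optionEquivLeft k σ).toAlgHom.comp (MvPolynomial.rename some)) =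
      (IsScalarTower.toAlgHom k (MvPolynomial σ k) (Polynomial (MvPolynomial σ k))) := by
    apply MvPolynomial.algHom_ext
    intro i
    simp
  have h2 := congrArg (fun f => f p) h
  exact h2.symm

theorem ts_eval {R : Type} [CommRing R] (c : k →+* R) (p : Option σ → R)
    (Q : Polynomial (MvPolynomial σ k)) :
    MvPolynomial.eval₂Hom c p (ts k σ Q) =
      Q.eval₂ (MvPolynomial.eval₂Hom c (fun i => p (some i))) (p none) := by
  have h : ((MvPolynomial.eval₂Hom c p).comp (ts k σ).toRingEquiv.toRingHom) =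
      Polynomial.eval₂RingHom (MvPolynomial.eval₂Hom c (fun i => p (some i))) (p none) := by
    apply Polynomial.ringHom_ext'
    · apply MvPolynomial.ringHom_ext
      · intro a
        change MvPolynomial.eval₂Hom c p (ts k σ (Polynomial.C (MvPolynomial.C a))) = _
        rw [ts_C, MvPolynomial.rename_C]
        simp
      · intro i
        change MvPolynomial.eval₂Hom c p (ts k σ (Polynomial.C (MvPolynomial.X i))) = _
        rw [ts_C, MvPolynomial.rename_X]
        simp
    · change MvPolynomial.eval₂Hom c p (ts k σ Polynomial.X) = _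
      rw [ts_X]
      simp
  exact congrArg (fun f => f Q) h

end ts

/-- the condition on a point of the space -/
def PtCond (F : IntermediateField ℚ ℂ) (T : Fin n → Typ) {r : ℕ} (ν : Fin n → (Fin r → ℚ) →ₗ[ℚ] ℂ)
    (Q : Fin n → Polynomial (MvPolynomial (Fin n ⊕ Fin n) F)) (x : Fin r → ℚ) : Prop :=
  ∃ (Dd : Fin n → Derivation ℚ ℂ ℂ) (L : Fin n → Fin n → ℂ), (∀ a, Dd a ∈ DF F) ∧
    (∀ a i, Dd a (ν i x) = if a = i then 1 else 0) ∧
    (∀ D ∈ DF F, ∀ j, ell (T j) D (ν j x) = ∑ i, L j i * D (ν i x)) ∧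
    (∀ j, ∀ D ∈ DF F, (∀ i, D (ν i x) = 0) → ∀ k, D (L j k) = 0) ∧
    (∀ j, (Q j).eval₂ (phd (ph0 F (fun i => ν i x))) (gl (L j)) = 0) ∧
    (∀ j, (Polynomial.derivative (Q j)).eval₂ (phd (ph0 F (fun i => ν i x))) (gl (L j)) ≠ 0) ∧
    (∀ c, (∀ j, Null F (T j) (ν j c)) → ∀ a k, Dd a (ν k c) = 0) ∧
    (∀ c, (∀ j, Null F (T j) (ν j c)) → (∀ j, ∑ k, L j k * ν k c = 0) → c = 0)

/-- **The count.** -/
theorem count_q {T : Fin n → Typ} (hT : ∀ j, InF F (T j)) {r : ℕ}
    (ν : Fin n → (Fin r → ℚ) →ₗ[ℚ] ℂ) (hν : ∀ c, (∀ j, ν j c = 0) → c = 0)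
    {Q : Fin n → Polynomial (MvPolynomial (Fin n ⊕ Fin n) F)} {m : ℕ} (hm : 1 ≤ m)
    (hQ : ∀ j, (ts F (Fin n ⊕ Fin n) (Q j)).totalDegree ≤ m) (S : Finset (Fin r → ℚ))
    (hS : ∀ x ∈ S, PtCond F T ν Q x) : S.card ≤ (m * r).choose r := by
  classical
  have hel : ∀ (j : Fin n) (D : DF F), ∃ f : ℂ →ₗ[ℚ] ℂ, ∀ u, f u = ell (T j) D u :=
    fun j D => ell_lin (hT j) D
  choose el hel using hel
  -- the equations
  let μ : Fin n → DF F → Option (Fin n ⊕ Fin n) → (Fin r → ℚ) →ₗ[ℚ] ℂ := fun j D o =>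
    o.elim (el j D ∘ₗ ν j) (Sum.elim
      (fun i => (D : Derivation ℚ ℂ ℂ).toLinearMap ∘ₗ ν i) (fun k => ν k))
  have hd : ∀ a : Fin n × DF F, IsD m
      (fun x => MvPolynomial.eval₂Hom (algebraMap F ℂ) (fun o => μ a.1 a.2 o x)
        (ts F (Fin n ⊕ Fin n) (Q a.1)))
      (fun y z => MvPolynomial.eval₂Hom (cst F ℂ)
        (fun o => TrivSqZeroExt.inl (μ a.1 a.2 o y) + TrivSqZeroExt.inr (μ a.1 a.2 o z))
        (ts F (Fin n ⊕ Fin n) (Q a.1))) := fun a => dq_mv (μ a.1 a.2) (hQ a.1)
  have hd' := fun a => (hd a).2.2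
  choose H H1 _ H3 H4 using hd'
  have hzero : ∀ a : Fin n × DF F, ∀ x ∈ S, MvPolynomial.eval₂Hom (algebraMap F ℂ)
      (fun o => μ a.1 a.2 o x) (ts F (Fin n ⊕ Fin n) (Q a.1)) = 0 := by
    rintro ⟨j, D⟩ x hx
    obtain ⟨_, L, _, _, hω, _, h0, _⟩ := hS x hx
    rw [ts_eval]
    have h1 := congrArg (MvPolynomial.eval (fun i => (D : Derivation ℚ ℂ ℂ) (ν i x))) (h0 j)
    rw [Polynomial.hom_eval₂, map_zero] at h1
    have e1 : (MvPolynomial.eval (fun i => (D : Derivation ℚ ℂ ℂ) (ν i x))).comp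
        (phd (ph0 F (fun i => ν i x))) = MvPolynomial.eval₂Hom (algebraMap F ℂ)
          (fun i => μ j D (some i) x) := by
      apply MvPolynomial.ringHom_ext
      · intro c
        simp [phd, ph0]
      · rintro (i | k)
        · simp only [phd, RingHom.comp_apply, MvPolynomial.eval₂Hom_X', Sum.elim_inl,
            MvPolynomial.eval_X]
          rfl
        · simp only [phd, ph0, RingHom.comp_apply, MvPolynomial.eval₂Hom_X', Sum.elim_inr,
            MvPolynomial.eval_C]
          rfl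
    have e2 : MvPolynomial.eval (fun i => (D : Derivation ℚ ℂ ℂ) (ν i x)) (gl (L j)) =
        μ j D none x := by
      change _ = el j D (ν j x)
      rw [hel, hω _ D.2]
      simp [gl]
    rw [e1, e2] at h1
    exact h1
  have key := Pool.Agent.TH813.CountF.count (K := ℚ) (A := ℂ) (ι := Fin r) (d := m - 1) H
    (fun a y z => H1 a y z) S (fun a y hy x hx => by
      rw [← H3 a x y]
      beta_reduce
      rw [hzero a x hx, hzero a y hy, sub_zero])
    (fun y hy z hz => by
      have hh : ∀ a : Fin n × DF F, MvPolynomial.eval₂Hom (cst F ℂ)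
        (fun o => TrivSqZeroExt.inl (μ a.1 a.2 o y) + TrivSqZeroExt.inr (μ a.1 a.2 o z))
        (ts F (Fin n ⊕ Fin n) (Q a.1)) = 0 := by
        intro a
        apply TrivSqZeroExt.ext
        · rw [TrivSqZeroExt.fst_zero, ← hzero a y hy]
          exact (hd a).1 y z
        · rw [TrivSqZeroExt.snd_zero, ← hz a]
          exact (H4 a y z).symm
      obtain ⟨Dd, L, hDd, hdual, hω, hLk, h0, h1, hk, hinj⟩ := hS y hy
      have h2 : ∀ j, ∀ D ∈ DF F, ell (T j) D (ν j z) = D (∑ k, L j k * ν k z) := fun j =>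
        tangent1 (τ := fun i => ν i z) (hT j) hDd hdual (fun D hD => hω D hD j) (hLk j) (h0 j)
          (h1 j) (fun D hD => by
          have h3 := hh (j, ⟨D, hD⟩)
          rw [ts_eval] at h3
          have e1 : (TrivSqZeroExt.inl (μ j ⟨D, hD⟩ none y) +
              TrivSqZeroExt.inr (μ j ⟨D, hD⟩ none z) : DualNumber ℂ) =
              du (ell (T j) D (ν j y)) (ell (T j) D (ν j z)) := by
            change TrivSqZeroExt.inl (el j ⟨D, hD⟩ (ν j y)) +
              TrivSqZeroExt.inr (el j ⟨D, hD⟩ (ν j z)) = _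
            rw [hel, hel]
            rfl
          have e2 : (fun i => (TrivSqZeroExt.inl (μ j ⟨D, hD⟩ (some i) y) +
              TrivSqZeroExt.inr (μ j ⟨D, hD⟩ (some i) z) : DualNumber ℂ)) =
              Sum.elim (fun i => du (D (ν i y)) (D (ν i z))) (fun k => du (ν k y) (ν k z)) := by
            funext i
            rcases i with i | k
            · rfl
            · rfl
          change (Q j).eval₂ (MvPolynomial.eval₂Hom (cst F ℂ)
            (fun i => (TrivSqZeroExt.inl (μ j ⟨D, hD⟩ (some i) y) +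
              TrivSqZeroExt.inr (μ j ⟨D, hD⟩ (some i) z) : DualNumber ℂ)))
            (TrivSqZeroExt.inl (μ j ⟨D, hD⟩ none y) +
              TrivSqZeroExt.inr (μ j ⟨D, hD⟩ none z) : DualNumber ℂ) = 0 at h3
          rw [e1, e2] at h3
          exact h3)
      have h3 := tangent2 (τ := fun i => ν i z) hT hDd hdual hω (hk z)
        (fun hn hL => by
          have h4 := hinj z hn hL
          subst h4
          funext i
          exact map_zero _) h2
      exact hν z (fun j => congrFun h3 j))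
  rw [Fintype.card_fin] at key
  have e : r + r * (m - 1) = m * r := by
    obtain ⟨k, hk⟩ := Nat.exists_eq_succ_of_ne_zero (show m ≠ 0 by omega)
    rw [hk]
    simp only [Nat.succ_eq_add_one, Nat.add_sub_cancel]
    ring
  rwa [e] at key

end Pool.Agent.V8H25.AS
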