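import Mathlib

/-!
# Squarefree polynomials over factorial rings
-/

set_option autoImplicit false

open Finset Module

noncomputable section

namespace Pool.Agent.V8H25.AS

open Polynomial

section ufd

variable {A : Type} [CommRing A] [IsDomain A] [UniqueFactorizationMonoid A]

/-- a primitive polynomial over the ring which is associated to a polynomial over the field -/
theorem exists_prim {g : Polynomial (FractionRing A)} (hg : g ≠ 0) :
    ∃ G : Polynomial A, G.IsPrimitive ∧ G.map (algebraMap A (FractionRing A)) ∣ g ∧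
      (IsUnit G → IsUnit g) := by
  have := Classical.arbitrary (NormalizedGCDMonoid A)
  refine ⟨(IsLocalization.integerNormalization (nonZeroDivisors A) g).primPart,
    isPrimitive_primPart _, ?_,
    isUnit_or_eq_zero_of_isUnit_integerNormalization_primPart hg⟩
  obtain ⟨b, hb, h⟩ := IsLocalization.integerNormalization_spec (nonZeroDivisors A) g
  have hb0 : algebraMap A (FractionRing A) b ≠ 0 := by
    intro h0
    exact nonZeroDivisors.ne_zero hb ((injective_iff_map_eq_zero _).1
      (IsFractionRing.injective A (FractionRing A)) _ h0)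
  have h1 : (IsLocalization.integerNormalization (nonZeroDivisors A) g).primPart.map
      (algebraMap A (FractionRing A)) ∣ (IsLocalization.integerNormalization
        (nonZeroDivisors A) g).map (algebraMap A (FractionRing A)) :=
    Polynomial.map_dvd _ (primPart_dvd _)
  rw [h] at h1
  have h2 : g = C ((algebraMap A (FractionRing A) b)⁻¹) * (b • g) := by
    rw [← IsScalarTower.algebraMap_smul (FractionRing A) b g, ← C_mul', ← mul_assoc, ← C_mul,
      inv_mul_cancel₀ hb0, C_1, one_mul]
  have h3 := h1.mul_left (C ((algebraMap A (FractionRing A) b)⁻¹))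
  rwa [← h2] at h3

theorem sqf_map {P : Polynomial A} (hP : Squarefree P) :
    Squarefree (P.map (algebraMap A (FractionRing A))) := by
  intro g hg
  have hinj := IsFractionRing.injective A (FractionRing A)
  have hP0 : P.map (algebraMap A (FractionRing A)) ≠ 0 :=
    (Polynomial.map_ne_zero_iff hinj).2 hP.ne_zero
  have hg0 : g ≠ 0 := by
    rintro rfl
    rw [zero_mul, zero_dvd_iff] at hg
    exact hP0 hg
  obtain ⟨G, hG, hGg, hu⟩ := exists_prim hg0
  apply hu
  apply hP
  have := Classical.arbitrary (NormalizedGCDMonoid A)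
  apply (hG.mul hG).dvd_of_fraction_map_dvd_fraction_map (K := FractionRing A)
  rw [Polynomial.map_mul]
  exact (mul_dvd_mul hGg hGg).trans hg

/-- simple roots -/
theorem sqf_simple [CharZero A] {E : Type} [Field E] {φ : A →+* E} (hφ : Function.Injective φ)
    {P : Polynomial A} (hP : Squarefree P) {w : E} (hw : (P.map φ).eval w = 0) :
    (Polynomial.derivative (P.map φ)).eval w ≠ 0 := by
  have hinj := IsFractionRing.injective A (FractionRing A)
  have : CharZero (FractionRing A) := charZero_of_injective_algebraMap hinj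
  have h1 := PerfectField.separable_iff_squarefree.2 (sqf_map hP)
  obtain ⟨a, b, hab⟩ := h1
  have hmap : (P.map (algebraMap A (FractionRing A))).map
      (IsFractionRing.lift hφ : FractionRing A →+* E) = P.map φ := by
    rw [Polynomial.map_map]
    congr 1
    ext x
    simp
  have h3 := congrArg (fun q => (q.map (IsFractionRing.lift hφ :
      FractionRing A →+* E)).eval w) hab
  simp only [Polynomial.map_add, Polynomial.map_mul, eval_add, eval_mul, hmap, hw, mul_zero,
    zero_add, Polynomial.map_one, eval_one, ← derivative_map] at h3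
  intro h4
  rw [h4, mul_zero] at h3
  exact zero_ne_one h3

omit [IsDomain A] in
/-- the radical -/
theorem exists_sqf {P : Polynomial A} (hP : P ≠ 0) :
    ∃ P' : Polynomial A, Squarefree P' ∧ P' ∣ P ∧ ∀ {E : Type} [Field E] (φ : A →+* E) (w : E),
      (P.map φ).eval w = 0 → (P'.map φ).eval w = 0 := by
  obtain ⟨P', N, h1, h2, h3⟩ := exists_squarefree_dvd_pow_of_ne_zero hP
  refine ⟨P', h1, h2, fun φ w hw => ?_⟩
  obtain ⟨c, hc⟩ := h3
  have h4 : ((P' ^ N).map φ).eval w = 0 := by
    rw [hc, Polynomial.map_mul, eval_mul, hw, zero_mul]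
  rw [Polynomial.map_pow, eval_pow] at h4
  exact eq_zero_of_pow_eq_zero h4

/-- relatively prime polynomials have no common root -/
theorem relprime_root {P κ : Polynomial A} (hP : P ≠ 0) (h : IsRelPrime P κ) {E : Type} [Field E]
    {φ : A →+* E} (hφ : Function.Injective φ) {α : E} (h1 : (P.map φ).eval α = 0) :
    (κ.map φ).eval α ≠ 0 := by
  intro h2
  have hinj := IsFractionRing.injective A (FractionRing A)
  have := Classical.arbitrary (NormalizedGCDMonoid A)
  have h3 : IsRelPrime (P.map (algebraMap A (FractionRing A)))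
      (κ.map (algebraMap A (FractionRing A))) := by
    intro g hg1 hg2
    have hg0 : g ≠ 0 := by
      rintro rfl
      rw [zero_dvd_iff] at hg1
      exact hP ((Polynomial.map_eq_zero_iff hinj).1 hg1)
    obtain ⟨G, hG, hGg, hu⟩ := exists_prim hg0
    apply hu
    exact h (hG.dvd_of_fraction_map_dvd_fraction_map (K := FractionRing A) (hGg.trans hg1))
      (hG.dvd_of_fraction_map_dvd_fraction_map (K := FractionRing A) (hGg.trans hg2))
  obtain ⟨a, b, hab⟩ := h3.isCoprime
  have hmap : ∀ Q : Polynomial A, (Q.map (algebraMap A (FractionRing A))).map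
      (IsFractionRing.lift hφ : FractionRing A →+* E) = Q.map φ := by
    intro Q
    rw [Polynomial.map_map]
    congr 1
    ext x
    simp
  have h4 := congrArg (fun q => (q.map (IsFractionRing.lift hφ :
      FractionRing A →+* E)).eval α) hab
  simp only [Polynomial.map_add, Polynomial.map_mul, eval_add, eval_mul, hmap, h1, h2, mul_zero,
    zero_add, Polynomial.map_one, eval_one] at h4
  exact zero_ne_one h4

/-- removing the common factors -/
theorem exists_strip {P : Polynomial A} (hP : P ≠ 0) (κ : Polynomial A) :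
    ∃ P' : Polynomial A, Squarefree P' ∧ P' ∣ P ∧
      (∀ {E : Type} [Field E] (φ : A →+* E), Function.Injective φ → ∀ α : E,
        (P'.map φ).eval α = 0 → (κ.map φ).eval α ≠ 0) ∧
      ∀ {E : Type} [Field E] (φ : A →+* E) (w : E), (κ.map φ).eval w ≠ 0 →
        (P.map φ).eval w = 0 → (P'.map φ).eval w = 0 := by
  obtain ⟨P₀, h1, h2, h3⟩ := exists_sqf hP
  have := Classical.arbitrary (NormalizedGCDMonoid A)
  let _ : GCDMonoid (Polynomial A) := UniqueFactorizationMonoid.toGCDMonoid _
  obtain ⟨P', hP'⟩ := GCDMonoid.gcd_dvd_left P₀ κ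
  obtain ⟨κ', hκ'⟩ := GCDMonoid.gcd_dvd_right P₀ κ
  have hdvd : P' ∣ P₀ := ⟨_, by rw [mul_comm]; exact hP'⟩
  have hsq : Squarefree P' := h1.squarefree_of_dvd hdvd
  refine ⟨P', hsq, hdvd.trans h2, fun φ hφ α hα => ?_, fun φ w hκ hw => ?_⟩
  · refine relprime_root hsq.ne_zero ?_ hφ hα
    intro d hd1 hd2
    apply h1
    rw [hP']
    exact mul_dvd_mul (GCDMonoid.dvd_gcd (hd1.trans hdvd) hd2) hd1
  · have h4 := h3 φ w hw
    rw [hP', Polynomial.map_mul, eval_mul] at h4
    refine (mul_eq_zero.1 h4).resolve_left (fun h5 => ?_)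
    apply hκ
    rw [hκ', Polynomial.map_mul, eval_mul, h5, zero_mul]

end ufd

end Pool.Agent.V8H25.AS
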