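import Mathlib
import Pool.Agent.V8H25.AS.Sqf
import Pool.Agent.V8H25.AS.Cnt

/-!
# Elimination
-/

set_option autoImplicit false

open Finset Module

noncomputable section

namespace Pool.Agent.V8H25.AS

open Polynomial

/-! ## degrees -/

section bd

variable {k : Type} [Field k] {σ : Type}

/-- total degree at most `m` -/
def Bt (m : ℕ) (q : Polynomial (MvPolynomial σ k)) : Prop := (ts k σ q).totalDegree ≤ m

theorem Bt.mono {m m' : ℕ} {q : Polynomial (MvPolynomial σ k)} (h : Bt m q) (hm : m ≤ m') :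
    Bt m' q := h.trans hm

theorem Bt.zero (m : ℕ) : Bt m (0 : Polynomial (MvPolynomial σ k)) := by
  unfold Bt
  simp

theorem Bt.one (m : ℕ) : Bt m (1 : Polynomial (MvPolynomial σ k)) := by
  unfold Bt
  simp

theorem Bt.add {m : ℕ} {p q : Polynomial (MvPolynomial σ k)} (hp : Bt m p) (hq : Bt m q) :
    Bt m (p + q) := by
  unfold Bt
  rw [map_add]
  exact (MvPolynomial.totalDegree_add _ _).trans (max_le hp hq)

theorem Bt.neg {m : ℕ} {p : Polynomial (MvPolynomial σ k)} (hp : Bt m p) : Bt m (-p) := by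
  unfold Bt
  rw [map_neg, MvPolynomial.totalDegree_neg]
  exact hp

theorem Bt.sum {κ : Type*} (s : Finset κ) {m : ℕ} {p : κ → Polynomial (MvPolynomial σ k)}
    (hp : ∀ i ∈ s, Bt m (p i)) : Bt m (∑ i ∈ s, p i) := by
  classical
  induction s using Finset.induction_on with
  | empty =>
    rw [sum_empty]
    exact Bt.zero _
  | insert i s hi ih =>
    rw [sum_insert hi]
    exact (hp i (mem_insert_self _ _)).add (ih (fun j hj => hp j (mem_insert_of_mem hj)))

theorem Bt.mul {m m' : ℕ} {p q : Polynomial (MvPolynomial σ k)} (hp : Bt m p)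
    (hq : Bt m' q) : Bt (m + m') (p * q) := by
  unfold Bt
  rw [map_mul]
  exact (MvPolynomial.totalDegree_mul _ _).trans (add_le_add hp hq)

theorem Bt.pow {m : ℕ} {p : Polynomial (MvPolynomial σ k)} (hp : Bt m p) (s : ℕ) :
    Bt (s * m) (p ^ s) := by
  induction s with
  | zero =>
    rw [pow_zero]
    exact Bt.one _
  | succ s ih =>
    rw [pow_succ, Nat.succ_mul]
    exact ih.mul hp

theorem Bt.prod {κ : Type*} (s : Finset κ) {m : κ → ℕ} {p : κ → Polynomial (MvPolynomial σ k)}
    (hp : ∀ i ∈ s, Bt (m i) (p i)) : Bt (∑ i ∈ s, m i) (∏ i ∈ s, p i) := by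
  classical
  induction s using Finset.induction_on with
  | empty =>
    rw [prod_empty]
    exact Bt.one _
  | insert i s hi ih =>
    rw [sum_insert hi, prod_insert hi]
    exact (hp i (mem_insert_self _ _)).mul (ih (fun j hj => hp j (mem_insert_of_mem hj)))

theorem Bt.C {m : ℕ} {p : MvPolynomial σ k} (h : p.totalDegree ≤ m) : Bt m (Polynomial.C p) := by
  unfold Bt
  rw [ts_C]
  exact (MvPolynomial.totalDegree_rename_le _ _).trans h

theorem Bt.X : Bt 1 (Polynomial.X : Polynomial (MvPolynomial σ k)) := by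
  unfold Bt
  rw [ts_X]
  exact (MvPolynomial.totalDegree_X _).le

theorem Bt.intCast_mul {m : ℕ} (l : ℤ) {q : Polynomial (MvPolynomial σ k)}
    (h : Bt m q) : Bt m ((l : Polynomial (MvPolynomial σ k)) * q) := by
  have h1 : (l : Polynomial (MvPolynomial σ k)) =
      Polynomial.C (MvPolynomial.C (l : k)) := by simp
  rw [h1]
  have h2 : Bt 0 (Polynomial.C (MvPolynomial.C (l : k)) :
      Polynomial (MvPolynomial σ k)) := Bt.C (MvPolynomial.totalDegree_C _).le
  exact (h2.mul h).mono (by omega)

theorem Bt.of_dvd {m : ℕ} {p q : Polynomial (MvPolynomial σ k)} (hq : Bt m q)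
    (h : p ∣ q) (hq0 : q ≠ 0) : Bt m p := by
  refine le_trans ?_ hq
  refine MvPolynomial.totalDegree_le_of_dvd_of_isDomain (map_dvd _ h) ?_
  rw [Ne, EmbeddingLike.map_eq_zero_iff]
  exact hq0

/-- degrees of resultants -/
theorem bt_resultant {f g : Polynomial (Polynomial (MvPolynomial σ k))} {a a' : ℕ}
    (m l : ℕ) (hf : ∀ i, Bt a (f.coeff i)) (hg : ∀ i, Bt a' (g.coeff i)) :
    Bt (m * a' + l * a) (Polynomial.resultant f g m l) := by
  classical
  unfold Polynomial.resultant
  rw [Matrix.det_apply']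
  refine Bt.sum _ (fun τ _ => ?_)
  refine Bt.intCast_mul _ ?_
  have h1 := Bt.prod (k := k) (σ := σ) (univ : Finset (Fin (m + l)))
    (m := fun i => Fin.addCases (fun _ : Fin m => a') (fun _ : Fin l => a) i)
    (p := fun i => sylvester f g m l (τ i) i) (by
      intro i _
      induction i using Fin.addCases with
      | left i =>
        simp only [sylvester, Matrix.of_apply, Fin.addCases_left]
        split_ifs
        · exact hg _
        · exact Bt.zero _
      | right i =>
        simp only [sylvester, Matrix.of_apply, Fin.addCases_right]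
        split_ifs
        · exact hf _
        · exact Bt.zero _)
  refine h1.mono ?_
  rw [Fin.sum_univ_add]
  simp

/-- coefficientwise bounds -/
def CBt (m : ℕ) (f : Polynomial (Polynomial (MvPolynomial σ k))) : Prop :=
  ∀ i, Bt m (f.coeff i)

theorem CBt.mul {m m' : ℕ} {f g : Polynomial (Polynomial (MvPolynomial σ k))}
    (hf : CBt m f) (hg : CBt m' g) : CBt (m + m') (f * g) := by
  intro i
  rw [coeff_mul]
  exact Bt.sum _ (fun x _ => (hf _).mul (hg _))

theorem CBt.pow {m : ℕ} {f : Polynomial (Polynomial (MvPolynomial σ k))}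
    (hf : CBt m f) (s : ℕ) : CBt (s * m) (f ^ s) := by
  induction s with
  | zero =>
    intro i
    rw [pow_zero, coeff_one]
    split_ifs
    · exact Bt.one _
    · exact Bt.zero _
  | succ s ih =>
    rw [pow_succ, Nat.succ_mul]
    exact ih.mul hf

theorem CBt.add {m : ℕ} {f g : Polynomial (Polynomial (MvPolynomial σ k))}
    (hf : CBt m f) (hg : CBt m g) : CBt m (f + g) := fun i => by
  rw [coeff_add]
  exact (hf i).add (hg i)

theorem CBt.neg {m : ℕ} {f : Polynomial (Polynomial (MvPolynomial σ k))}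
    (hf : CBt m f) : CBt m (-f) := fun i => by
  rw [coeff_neg]
  exact (hf i).neg

theorem CBt.sum {κ : Type*} (s : Finset κ) {m : ℕ}
    {p : κ → Polynomial (Polynomial (MvPolynomial σ k))}
    (hp : ∀ i ∈ s, CBt m (p i)) : CBt m (∑ i ∈ s, p i) := fun j => by
  rw [finsetSum_coeff]
  exact Bt.sum _ (fun i hi => hp i hi j)

theorem CBt.mono {m m' : ℕ} {f : Polynomial (Polynomial (MvPolynomial σ k))}
    (hf : CBt m f) (h : m ≤ m') : CBt m' f := fun i => (hf i).mono h

theorem CBt.C {m : ℕ} {q : Polynomial (MvPolynomial σ k)} (h : Bt m q) :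
    CBt m (Polynomial.C q) := fun i => by
  rw [coeff_C]
  split_ifs
  · exact h
  · exact Bt.zero _

end bd

/-! ## the degree in `X` -/

section psi

variable {k : Type} [Field k] {n : ℕ}

/-- polynomials in `L` with coefficients in `k[X]` as polynomials in `X` -/
def Psi (k : Type) [Field k] (n : ℕ) : Polynomial (MvPolynomial (Fin n) k) →+*
    MvPolynomial (Fin n) (Polynomial k) :=
  Polynomial.eval₂RingHom (MvPolynomial.map Polynomial.C) (MvPolynomial.C Polynomial.X)

theorem Psi_coeff (q : Polynomial (MvPolynomial (Fin n) k)) (s : Fin n →₀ ℕ) (j : ℕ) :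
    ((Psi k n q).coeff s).coeff j = (q.coeff j).coeff s := by
  classical
  induction q using Polynomial.induction_on' with
  | add p q hp hq =>
    rw [map_add, MvPolynomial.coeff_add, coeff_add, hp, hq, coeff_add, MvPolynomial.coeff_add]
  | monomial m a =>
    unfold Psi
    rw [coe_eval₂RingHom, eval₂_monomial, ← map_pow, mul_comm, MvPolynomial.coeff_C_mul,
      MvPolynomial.coeff_map, coeff_monomial]
    rw [coeff_X_pow_mul', coeff_C]
    by_cases h : m = j
    · subst h
      rw [if_pos le_rfl, Nat.sub_self, if_pos rfl, if_pos rfl]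
    · rw [if_neg h, MvPolynomial.coeff_zero]
      split_ifs with h1 h2
      · exact absurd (by omega) h
      · rfl
      · rfl

theorem Psi_deg (q : Polynomial (MvPolynomial (Fin n) k)) (B : ℕ) :
    (Psi k n q).totalDegree ≤ B ↔ ∀ j, (q.coeff j).totalDegree ≤ B := by
  constructor
  · intro h j
    unfold MvPolynomial.totalDegree
    rw [Finset.sup_le_iff]
    intro s hs
    refine le_trans ?_ h
    apply MvPolynomial.le_totalDegree
    rw [MvPolynomial.mem_support_iff]
    intro h0
    apply MvPolynomial.mem_support_iff.1 hs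
    rw [← Psi_coeff, h0, coeff_zero]
  · intro h
    unfold MvPolynomial.totalDegree
    rw [Finset.sup_le_iff]
    intro s hs
    rw [MvPolynomial.mem_support_iff] at hs
    obtain ⟨j, hj⟩ : ∃ j, ((Psi k n q).coeff s).coeff j ≠ 0 := by
      by_contra hcon
      push Not at hcon
      exact hs (Polynomial.ext (fun j => by rw [hcon j, coeff_zero]))
    rw [Psi_coeff] at hj
    exact (MvPolynomial.le_totalDegree (MvPolynomial.mem_support_iff.2 hj)).trans (h j)

theorem Psi_inj : Function.Injective (Psi k n) := by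
  rw [injective_iff_map_eq_zero]
  intro q hq
  ext j s
  rw [← Psi_coeff, hq, MvPolynomial.coeff_zero, coeff_zero, coeff_zero, MvPolynomial.coeff_zero]

theorem coeff_dvd {p q : Polynomial (MvPolynomial (Fin n) k)} (h : p ∣ q) (hq0 : q ≠ 0) {a : ℕ}
    (hq : ∀ i, (q.coeff i).totalDegree ≤ a) : ∀ i, (p.coeff i).totalDegree ≤ a := by
  rw [← Psi_deg] at hq ⊢
  refine le_trans ?_ hq
  refine MvPolynomial.totalDegree_le_of_dvd_of_isDomain (map_dvd _ h) ?_
  rw [Ne, map_eq_zero_iff _ Psi_inj]
  exact hq0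

end psi

/-! ## the resultant -/

variable {k : Type} [Field k] {n : ℕ} (P : Polynomial (MvPolynomial (Fin n) k))
  (κ : Polynomial k) (s : ℕ)

/-- the derivative with respect to the inner variable `i` -/
def dXi (i : Fin n) : Polynomial (MvPolynomial (Fin n) k) :=
  ∑ l ∈ range (P.natDegree + 1), monomial l (MvPolynomial.pderiv i (P.coeff l))

theorem dXi_coeff (i : Fin n) (l : ℕ) :
    (dXi P i).coeff l = MvPolynomial.pderiv i (P.coeff l) := by
  unfold dXi
  rw [finsetSum_coeff]
  simp only [coeff_monomial]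
  rw [Finset.sum_ite_eq']
  split_ifs with h
  · rfl
  · rw [coeff_eq_zero_of_natDegree_lt (by
      by_contra hcon
      exact h (mem_range.2 (by omega))), map_zero]

theorem dXi_natDegree (i : Fin n) : (dXi P i).natDegree ≤ P.natDegree := by
  rw [natDegree_le_iff_coeff_eq_zero]
  intro N hN
  rw [dXi_coeff, coeff_eq_zero_of_natDegree_lt hN, map_zero]

/-- polynomials in `X` -/
def jX (k : Type) [Field k] (n : ℕ) :
    MvPolynomial (Fin n) k →+* Polynomial (MvPolynomial (Fin n ⊕ Fin n) k) :=
  Polynomial.C.comp (MvPolynomial.rename (R := k) (Sum.inr : Fin n → Fin n ⊕ Fin n)).toRingHom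

/-- the second polynomial -/
def Sd3 : Polynomial (Polynomial (MvPolynomial (Fin n ⊕ Fin n) k)) :=
  C (X ^ s) * (κ.map ((jX k n).comp MvPolynomial.C) *
    (Polynomial.derivative P).map (jX k n) ^ s) +
    -(-∑ i, C (C (MvPolynomial.X (Sum.inl i))) * (dXi P i).map (jX k n)) ^ s

/-- the resultant -/
def R3 (m : ℕ) : Polynomial (MvPolynomial (Fin n ⊕ Fin n) k) :=
  Polynomial.resultant (P.map (jX k n)) (Sd3 P κ s) P.natDegree m

theorem cbt_map {a : ℕ} {P : Polynomial (MvPolynomial (Fin n) k)}
    (ha : ∀ i, (P.coeff i).totalDegree ≤ a) : CBt a (P.map (jX k n)) := fun i => by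
  rw [coeff_map]
  exact Bt.C ((MvPolynomial.totalDegree_rename_le _ _).trans (ha i))

theorem R3_bd {a : ℕ} (ha : ∀ i, (P.coeff i).totalDegree ≤ a) (m : ℕ) :
    Bt (P.natDegree * (s * (a + 1)) + m * a) (R3 P κ s m) := by
  refine bt_resultant _ _ (cbt_map ha) ?_
  have h1 : ∀ i, ((Polynomial.derivative P).coeff i).totalDegree ≤ a := fun i => by
    rw [coeff_derivative]
    have h3 : (P.coeff (i + 1) * ((i : MvPolynomial (Fin n) k) + 1)) =
        P.coeff (i + 1) * MvPolynomial.C ((i : k) + 1) := by simp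
    rw [h3]
    refine (MvPolynomial.totalDegree_mul _ _).trans ?_
    rw [MvPolynomial.totalDegree_C, add_zero]
    exact ha _
  have h2 : ∀ i l, ((dXi P i).coeff l).totalDegree ≤ a := fun i l => by
    rw [dXi_coeff]
    exact (Pool.Agent.TH813.DQ.totalDegree_pderiv _ _).trans (ha l)
  have h3 : CBt 0 (κ.map ((jX k n).comp MvPolynomial.C)) := fun i => by
    rw [coeff_map]
    exact Bt.C (by simp)
  have h4 : CBt s (C (X ^ s : Polynomial (MvPolynomial (Fin n ⊕ Fin n) k))) :=
    CBt.C ((Bt.X.pow s).mono (by omega))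
  have h5 : CBt (a + 1) (-∑ i, C (C (MvPolynomial.X (Sum.inl i))) *
      (dXi P i).map (jX k n)) := by
    refine CBt.neg (CBt.sum _ (fun i _ => ?_))
    refine ((CBt.C (Bt.C (m := 1) ?_)).mul (cbt_map (h2 i))).mono (by omega)
    exact (MvPolynomial.totalDegree_X _).le
  refine CBt.add ((h4.mul (h3.mul ((cbt_map h1).pow s))).mono ?_) ((h5.pow s).neg)
  have : s * (a + 1) = s + s * a := by ring
  omega

variable {E : Type} [Field E] (φ : MvPolynomial (Fin n) k →+* E) (v : Fin n → E)

/-- evaluation at numbers -/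
def phv : MvPolynomial (Fin n ⊕ Fin n) k →+* E :=
  MvPolynomial.eval₂Hom (φ.comp MvPolynomial.C)
    (Sum.elim v (fun i => φ (MvPolynomial.X i)))

theorem phv_comp (T : E) : (eval₂RingHom (phv φ v) T).comp (jX k n) = φ := by
  apply MvPolynomial.ringHom_ext
  · intro c
    simp [jX, phv]
  · intro i
    simp [jX, phv]

/-- the specialised second polynomial -/
def Sp3 (T : E) : Polynomial E :=
  C (T ^ s) * (κ.map (φ.comp MvPolynomial.C) * Polynomial.derivative (P.map φ) ^ s) +
    -(-∑ i, C (v i) * (dXi P i).map φ) ^ s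

theorem Sp3_natDegree {m : ℕ} (hn : κ.natDegree + s * (P.natDegree - 1) ≤ m)
    (hn' : s * P.natDegree ≤ m) (T : E) : (Sp3 P κ s φ v T).natDegree ≤ m := by
  unfold Sp3
  refine natDegree_add_le_of_degree_le ?_ ?_
  · refine (natDegree_C_mul_le _ _).trans (le_trans ?_ hn)
    refine natDegree_mul_le_of_le natDegree_map_le ?_
    exact natDegree_pow_le_of_le s ((natDegree_derivative_le _).trans
      (Nat.sub_le_sub_right natDegree_map_le 1))
  · rw [natDegree_neg]
    refine (natDegree_pow_le_of_le s ?_).trans hn'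
    rw [natDegree_neg]
    refine natDegree_sum_le_of_forall_le _ _ (fun i _ => ?_)
    exact (natDegree_C_mul_le _ _).trans (natDegree_map_le.trans (dXi_natDegree P i))

theorem spec3 (m : ℕ) (T : E) : eval₂ (phv φ v) T (R3 P κ s m) =
    Polynomial.resultant (P.map φ) (Sp3 P κ s φ v T) P.natDegree m := by
  have h1 := phv_comp φ v T
  have h2 := resultant_map_map (P.map (jX k n)) (Sd3 P κ s) P.natDegree m
    (eval₂RingHom (phv φ v) T)
  rw [Polynomial.map_map, h1] at h2
  have h3 : (Sd3 P κ s).map (eval₂RingHom (phv φ v) T) = Sp3 P κ s φ v T := by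
    unfold Sd3 Sp3
    rw [Polynomial.map_add, Polynomial.map_mul, Polynomial.map_mul, Polynomial.map_pow,
      Polynomial.map_neg, Polynomial.map_pow, Polynomial.map_neg, map_C, Polynomial.map_sum]
    simp only [Polynomial.map_map, Polynomial.map_mul, map_C, h1, ← RingHom.comp_assoc]
    rw [derivative_map]
    have h4 : (eval₂RingHom (phv φ v) T) (X ^ s) = T ^ s := by simp
    have h5 : ∀ i, (eval₂RingHom (phv φ v) T) (C (MvPolynomial.X (Sum.inl i))) = v i := by
      intro i
      simp [phv]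
    rw [h4]
    simp only [h5]
  rw [h3] at h2
  exact h2.symm

/-- the resultant vanishes if there is a common root -/
theorem spec3_zero (hP : 0 < P.natDegree) {m : ℕ} (hn : κ.natDegree + s * (P.natDegree - 1) ≤ m)
    (hn' : s * P.natDegree ≤ m) {T w : E} (h1 : (P.map φ).eval w = 0)
    (h2 : T ^ s * ((κ.map (φ.comp MvPolynomial.C)).eval w *
      (Polynomial.derivative (P.map φ)).eval w ^ s) +
      -(-∑ i, v i * ((dXi P i).map φ).eval w) ^ s = 0) :
    eval₂ (phv φ v) T (R3 P κ s m) = 0 := by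
  rw [spec3]
  obtain ⟨p, q, _, _, h⟩ := exists_mul_add_mul_eq_C_resultant (P.map φ) (Sp3 P κ s φ v T)
    (m := P.natDegree) (n := m) natDegree_map_le (Sp3_natDegree P κ s φ v hn hn' T)
    (Or.inl hP.ne')
  have h3 := congrArg (eval w) h
  rw [eval_add, eval_mul, eval_mul, eval_C, h1] at h3
  have h4 : (Sp3 P κ s φ v T).eval w = 0 := by
    unfold Sp3
    rw [eval_add, eval_mul, eval_mul, eval_C, eval_pow, eval_neg, eval_pow, eval_neg,
      eval_finsetSum]
    simp only [eval_mul, eval_C]
    exact h2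
  rw [h4, zero_mul, zero_mul, add_zero] at h3
  exact h3.symm

/-- the resultant is not zero -/
theorem R3_ne [CharZero k] {P : Polynomial (MvPolynomial (Fin n) k)} (hP : Squarefree P)
    (hs : 1 ≤ s)
    {m : ℕ} (hn : κ.natDegree + s * (P.natDegree - 1) ≤ m) (hn' : s * P.natDegree ≤ m)
    (hκ : ∀ {E : Type} [Field E] (φ : MvPolynomial (Fin n) k →+* E), Function.Injective φ →
      ∀ α : E, (P.map φ).eval α = 0 → (κ.map (φ.comp MvPolynomial.C)).eval α ≠ 0) :
    R3 P κ s m ≠ 0 := by
  let K := FractionRing (MvPolynomial (Fin n) k)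
  let φ₀ : MvPolynomial (Fin n) k →+* AlgebraicClosure K :=
    (algebraMap K (AlgebraicClosure K)).comp (algebraMap (MvPolynomial (Fin n) k) K)
  have hφ₀ : Function.Injective φ₀ :=
    (algebraMap K (AlgebraicClosure K)).injective.comp (IsFractionRing.injective _ _)
  have hK : CharZero K := charZero_of_injective_algebraMap
    (IsFractionRing.injective (MvPolynomial (Fin n) k) K)
  have hdeg : (P.map φ₀).natDegree = P.natDegree := natDegree_map_eq_of_injective hφ₀ P
  have hP0 : P.map φ₀ ≠ 0 := (Polynomial.map_ne_zero_iff hφ₀).2 hP.ne_zero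
  intro hR
  have h1 := spec3 P κ s φ₀ 0 m 1
  rw [hR, eval₂_zero, ← hdeg, resultant_eq_prod_eval _ _ _
    (Sp3_natDegree P κ s φ₀ 0 hn hn' 1) (IsAlgClosed.splits _)] at h1
  have h2 := (mul_eq_zero.1 h1.symm).resolve_left (pow_ne_zero _ (leadingCoeff_ne_zero.2 hP0))
  rw [Multiset.prod_eq_zero_iff, Multiset.mem_map] at h2
  obtain ⟨α, hα, h3⟩ := h2
  have hα0 : (P.map φ₀).eval α = 0 := isRoot_of_mem_roots hα
  unfold Sp3 at h3
  have h4 : (0 : AlgebraicClosure K) ^ s = 0 := zero_pow (by omega)
  simp only [one_pow, Pi.zero_apply, C_0, zero_mul, sum_const_zero, neg_zero, eval_add, eval_mul,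
    eval_pow, eval_neg, eval_zero, h4, add_zero, C_1, one_mul] at h3
  exact mul_ne_zero (hκ φ₀ hφ₀ α hα0) (pow_ne_zero _ (sqf_simple hφ₀ hP hα0)) h3

/-- the generic evaluation -/
theorem phd_inj {F : IntermediateField ℚ ℂ} {A : Type} [Field A]
    {φ : MvPolynomial (Fin n) F →+* A} (hφ : Function.Injective φ) :
    Function.Injective (phd φ) := by
  have h : phd φ = (MvPolynomial.map φ).comp
      (MvPolynomial.sumAlgEquiv F (Fin n) (Fin n)).toRingEquiv.toRingHom := by
    apply MvPolynomial.ringHom_ext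
    · intro c
      simp [phd]
    · rintro (i | i)
      · simp [phd]
      · simp [phd]
  rw [h]
  exact (MvPolynomial.map_injective φ hφ).comp
    (MvPolynomial.sumAlgEquiv F (Fin n) (Fin n)).injective

/-- **The polynomial relation.** -/
theorem exists_Q {F : IntermediateField ℚ ℂ} {P : Polynomial (MvPolynomial (Fin n) F)}
    (hP : Squarefree P)
    {a : ℕ} (ha : ∀ i, (P.coeff i).totalDegree ≤ a) (κ : Polynomial F) (s : ℕ) (hs : 1 ≤ s)
    {m : ℕ} (hn : κ.natDegree + s * (P.natDegree - 1) ≤ m) (hn' : s * P.natDegree ≤ m)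
    (hκ : ∀ {E : Type} [Field E] (φ : MvPolynomial (Fin n) F →+* E), Function.Injective φ →
      ∀ α : E, (P.map φ).eval α = 0 → (κ.map (φ.comp MvPolynomial.C)).eval α ≠ 0) :
    ∃ Q : Polynomial (MvPolynomial (Fin n ⊕ Fin n) F),
      Bt (P.natDegree * (s * (a + 1)) + m * a) Q ∧
      ∀ φ : MvPolynomial (Fin n) F →+* ℂ, Function.Injective φ →
        ∀ w Y : ℂ, (P.map φ).eval w = 0 → (κ.map (φ.comp MvPolynomial.C)).eval w = Y ^ s →
        ∀ L : Fin n → ℂ,
        (∀ i, L i * (Y * (Polynomial.derivative (P.map φ)).eval w) +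
          ((dXi P i).map φ).eval w = 0) →
        eval₂ (phd φ) (gl L) Q = 0 ∧ eval₂ (phd φ) (gl L) (Polynomial.derivative Q) ≠ 0 := by
  have hR := R3_ne κ s hP hs hn hn' hκ
  obtain ⟨Q, hQ, hQd, hQ'⟩ := exists_sqf hR
  refine ⟨Q, (R3_bd P κ s ha m).of_dvd hQd hR, fun φ hφ w Y hw hY L hL => ?_⟩
  have hd : 0 < P.natDegree := by
    rcases Nat.eq_zero_or_pos P.natDegree with h0 | h0
    · exfalso
      rw [eq_C_of_natDegree_eq_zero h0, map_C, eval_C] at hw
      apply hP.ne_zero
      rw [eq_C_of_natDegree_eq_zero h0, (injective_iff_map_eq_zero φ).1 hφ _ hw, map_zero]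
    · exact h0
  let M := MvPolynomial (Fin n) ℂ
  let K := FractionRing M
  let ι : ℂ →+* K := (algebraMap M K).comp MvPolynomial.C
  let φK : MvPolynomial (Fin n) F →+* K := ι.comp φ
  let v : Fin n → K := fun i => algebraMap M K (MvPolynomial.X i)
  have hphv : phv φK v = (algebraMap M K).comp (phd φ) := by
    apply MvPolynomial.ringHom_ext
    · intro c
      simp [phv, phd, φK, ι]
    · rintro (i | i)
      · simp [phv, phd, v]
      · simp [phv, phd, φK, ι]
  have hvinj : Function.Injective (phv φK v) := by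
    rw [hphv]
    exact (IsFractionRing.injective M K).comp (phd_inj hφ)
  have hmap : ∀ R : Polynomial (MvPolynomial (Fin n) F), (R.map φK).eval (ι w) =
      ι ((R.map φ).eval w) := by
    intro R
    rw [← eval₂_eq_eval_map, ← eval₂_eq_eval_map, hom_eval₂]
  have e1 : algebraMap M K (gl L) = ∑ i, ι (L i) * v i := by
    unfold gl
    rw [map_sum]
    exact sum_congr rfl (fun i _ => map_mul _ _ _)
  have e2 : (∑ i, ι (L i) * v i) * ι (Y * (Polynomial.derivative (P.map φ)).eval w) =
      -∑ i, v i * ((dXi P i).map φK).eval (ι w) := by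
    rw [sum_mul, ← sum_neg_distrib]
    refine sum_congr rfl (fun i _ => ?_)
    rw [hmap]
    have h3 := congrArg ι (hL i)
    rw [map_add, map_mul, map_zero] at h3
    linear_combination v i * h3
  have hR0 : eval₂ (phv φK v) (algebraMap M K (gl L)) (R3 P κ s m) = 0 := by
    refine spec3_zero P κ s φK v hd hn hn' (w := ι w) ?_ ?_
    · rw [hmap, hw, map_zero]
    · have e3 : (κ.map (φK.comp MvPolynomial.C)).eval (ι w) = ι Y ^ s := by
        rw [← map_pow, ← hY, ← eval₂_eq_eval_map, ← eval₂_eq_eval_map, hom_eval₂]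
        rfl
      have e4 : (Polynomial.derivative (P.map φK)).eval (ι w) =
          ι ((Polynomial.derivative (P.map φ)).eval w) := by
        rw [derivative_map, derivative_map, hmap]
      rw [e3, e4, ← e2, e1, map_mul]
      ring
  rw [eval₂_eq_eval_map] at hR0
  have hQ0 := hQ' (phv φK v) _ hR0
  have hQ1 := sqf_simple hvinj hQ hQ0
  rw [derivative_map, ← eval₂_eq_eval_map, hphv, ← hom_eval₂] at hQ1
  rw [← eval₂_eq_eval_map, hphv, ← hom_eval₂] at hQ0
  refine ⟨?_, fun h0 => ?_⟩
  · exact (injective_iff_map_eq_zero _).1 (IsFractionRing.injective M K) _ hQ0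
  · rw [h0, map_zero] at hQ1
    exact hQ1 rfl

end Pool.Agent.V8H25.AS
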