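import Mathlib
import Pool.Agent.V8H25.AS.Elim
import Pool.Agent.TH813.CurveC

/-!
# The polynomial relations for the two types
-/

set_option autoImplicit false

open Finset Module
open scoped PeriodPair

noncomputable section

namespace Pool.Agent.V8H25.AS

open Polynomial
open Pool.Agent.TH813.MixSys Pool.Agent.TH813.CurveG
open Pool.Agent.TH813.Rel (DF)

variable {F : IntermediateField ℚ ℂ} {n : ℕ}

/-- the relations of the derivatives -/
def Good (T : Typ) (hT : InF F T) (P P' : Polynomial (MvPolynomial (Fin n) F))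
    (Q : Polynomial (MvPolynomial (Fin n ⊕ Fin n) F)) : Prop :=
  ∀ φ : MvPolynomial (Fin n) F →+* ℂ, Function.Injective φ →
    φ.comp MvPolynomial.C = algebraMap F ℂ → ∀ w Y : ℂ, Y ≠ 0 →
    (match T, hT with
      | none, _ => w = Y
      | some L, hT => aeval w (kap L hT.1 hT.2) = Y ^ 2) →
    (P.map φ).eval w = 0 →
    (P'.map φ).eval w = 0 ∧ (derivative (P'.map φ)).eval w ≠ 0 ∧
    ∀ L : Fin n → ℂ, (∀ i, L i * (Y * (derivative (P'.map φ)).eval w) +
      ((dXi P' i).map φ).eval w = 0) →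
      eval₂ (phd φ) (gl L) Q = 0 ∧ eval₂ (phd φ) (gl L) (derivative Q) ≠ 0

/-- the bound for the degrees of the two types -/
def bdT : Typ → ℕ → ℕ → ℕ
  | none, a, b => (2 * a + 1) * b
  | some _, a, b => 4 * a * b + a + 2 * b

theorem exists_good {P : Polynomial (MvPolynomial (Fin n) F)} (hP : P ≠ 0) {a b : ℕ}
    (ha : ∀ i, (P.coeff i).totalDegree ≤ a) (hb : P.natDegree ≤ b) (hb1 : 1 ≤ b)
    {T : Typ} (hT : InF F T) :
    ∃ P' Q, Good T hT P P' Q ∧ Bt (bdT T a b) Q := by
  cases T with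
  | none =>
    obtain ⟨P', h1, h2, h3, h4⟩ := exists_strip hP ((X : Polynomial F).map MvPolynomial.C)
    have hd : P'.natDegree ≤ b := (natDegree_le_of_dvd h2 hP).trans hb
    have hda : ∀ i, (P'.coeff i).totalDegree ≤ a := (coeff_dvd h2 hP ha)
    have hκ : ∀ {E : Type} [Field E] (φ : MvPolynomial (Fin n) F →+* E), Function.Injective φ →
        ∀ α : E, (P'.map φ).eval α = 0 →
          ((X : Polynomial F).map (φ.comp MvPolynomial.C)).eval α ≠ 0 := by
      intro E _ φ hφ α hα
      have h5 := h3 φ hφ α hα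
      rwa [Polynomial.map_map] at h5
    obtain ⟨Q, hQ1, hQ2⟩ := exists_Q h1 hda (X : Polynomial F) 1 le_rfl (m := b)
      (by rw [natDegree_X]; omega) (by omega) hκ
    refine ⟨P', Q, ?_, hQ1.mono ?_⟩
    · intro φ hφ hC w Y hY hwY hw
      change w = Y at hwY
      subst hwY
      have h5 : (((X : Polynomial F).map MvPolynomial.C).map φ).eval w ≠ 0 := by
        rw [map_X, map_X, eval_X]
        exact hY
      have h6 := h4 φ w h5 hw
      refine ⟨h6, sqf_simple hφ h1 h6, fun L hL => hQ2 φ hφ w w h6 ?_ L hL⟩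
      rw [map_X, eval_X, pow_one]
    · change _ ≤ (2 * a + 1) * b
      have : P'.natDegree * (1 * (a + 1)) ≤ b * (1 * (a + 1)) := Nat.mul_le_mul_right _ hd
      have e : (2 * a + 1) * b = b * (1 * (a + 1)) + b * a := by ring
      omega
  | some L =>
    obtain ⟨P', h1, h2, h3, h4⟩ := exists_strip hP ((kap L hT.1 hT.2).map MvPolynomial.C)
    have hd : P'.natDegree ≤ b := (natDegree_le_of_dvd h2 hP).trans hb
    have hda : ∀ i, (P'.coeff i).totalDegree ≤ a := (coeff_dvd h2 hP ha)
    have hκd : (kap L hT.1 hT.2).natDegree ≤ 3 := by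
      unfold kap
      compute_degree
    have hκ : ∀ {E : Type} [Field E] (φ : MvPolynomial (Fin n) F →+* E), Function.Injective φ →
        ∀ α : E, (P'.map φ).eval α = 0 →
          ((kap L hT.1 hT.2).map (φ.comp MvPolynomial.C)).eval α ≠ 0 := by
      intro E _ φ hφ α hα
      have h5 := h3 φ hφ α hα
      rwa [Polynomial.map_map] at h5
    obtain ⟨Q, hQ1, hQ2⟩ := exists_Q h1 hda (kap L hT.1 hT.2) 2 (by omega) (m := 2 * b + 1)
      (by omega) (by omega) hκ
    refine ⟨P', Q, ?_, hQ1.mono ?_⟩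
    · intro φ hφ hC w Y hY hwY hw
      change aeval w (kap L hT.1 hT.2) = Y ^ 2 at hwY
      have hev : ((kap L hT.1 hT.2).map (φ.comp MvPolynomial.C)).eval w = Y ^ 2 := by
        rw [hC, ← hwY, aeval_def, eval₂_eq_eval_map]
      have h5 : (((kap L hT.1 hT.2).map MvPolynomial.C).map φ).eval w ≠ 0 := by
        rw [Polynomial.map_map, hev]
        exact pow_ne_zero _ hY
      have h6 := h4 φ w h5 hw
      exact ⟨h6, sqf_simple hφ h1 h6, fun L hL => hQ2 φ hφ w Y h6 hev L hL⟩
    · change _ ≤ 4 * a * b + a + 2 * b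
      have : P'.natDegree * (2 * (a + 1)) ≤ b * (2 * (a + 1)) := Nat.mul_le_mul_right _ hd
      have e : 4 * a * b + a + 2 * b = b * (2 * (a + 1)) + (2 * b + 1) * a := by ring
      omega

end Pool.Agent.V8H25.AS
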