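import Mathlib
import Pool.Agent.V8H25.AS.Good

/-!
# The points of a rational space on a variety
-/

set_option autoImplicit false

open Finset Module
open scoped PeriodPair

noncomputable section

namespace Pool.Agent.V8H25.AS

open Matrix
open Pool.Agent.W252 Pool.Agent.W669.Gel
open Pool.Agent.TH813.MixSys Pool.Agent.TH813.CurveG Pool.Agent.TH813.ZtFin
open Pool.Agent.TH813.Rel (DF exists_derF)

variable {F : IntermediateField ℚ ℂ} {n : ℕ}

theorem der_mv {D : Derivation ℚ ℂ ℂ} (hD : D ∈ DF F) (z : Fin n → ℂ)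
    (P : MvPolynomial (Fin n) F) : D (ph0 F z P) =
      ∑ k, ph0 F z (MvPolynomial.pderiv k P) * D (z k) := by
  classical
  induction P using MvPolynomial.induction_on with
  | C b =>
    have h1 : D (algebraMap F ℂ b) = 0 := hD _ b.2
    unfold ph0
    rw [MvPolynomial.eval₂Hom_C, h1]
    refine (sum_eq_zero (fun k _ => ?_)).symm
    rw [MvPolynomial.pderiv_C, map_zero, zero_mul]
  | add p q hp hq =>
    rw [map_add, map_add, hp, hq, ← sum_add_distrib]
    refine sum_congr rfl (fun k _ => ?_)
    rw [map_add, map_add, add_mul]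
  | mul_X p i hp =>
    have hX : ph0 F z (MvPolynomial.X i) = z i := by
      unfold ph0
      rw [MvPolynomial.eval₂Hom_X']
    rw [map_mul, hX, Derivation.leibniz, hp]
    simp only [smul_eq_mul, Derivation.leibniz,
      map_add, map_mul, MvPolynomial.pderiv_X, Pi.single_apply, hX]
    have h4 : ∀ k, (ph0 F z p * ph0 F z
        (if i = k then (1 : MvPolynomial (Fin n) F) else 0) +
        z i * ph0 F z (MvPolynomial.pderiv k p)) * D (z k) =
        z i * (ph0 F z (MvPolynomial.pderiv k p) * D (z k)) +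
          (if k = i then ph0 F z p * D (z i) else 0) := by
      intro k
      by_cases hk : k = i
      · subst hk
        rw [if_pos rfl, if_pos rfl, map_one]
        ring
      · rw [if_neg hk, if_neg (Ne.symm hk), map_zero]
        ring
    simp only [h4, sum_add_distrib, sum_ite_eq', mem_univ, if_true, mul_sum]
    ring

/-- the chain rule -/
theorem der_eval {D : Derivation ℚ ℂ ℂ} (hD : D ∈ DF F) (P : Polynomial (MvPolynomial (Fin n) F))
    (z : Fin n → ℂ) (w : ℂ) :
    D ((P.map (ph0 F z)).eval w) = ∑ k, ((dXi P k).map (ph0 F z)).eval w * D (z k) +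
      (Polynomial.derivative (P.map (ph0 F z))).eval w * D w := by
  classical
  have e1 : (P.map (ph0 F z)).eval w =
      ∑ j ∈ range (P.natDegree + 1), ph0 F z (P.coeff j) * w ^ j := by
    rw [Polynomial.eval_eq_sum_range' (Nat.lt_succ_of_le Polynomial.natDegree_map_le)]
    exact sum_congr rfl (fun j _ => by rw [Polynomial.coeff_map])
  have e2 : ∀ k, ((dXi P k).map (ph0 F z)).eval w =
      ∑ j ∈ range (P.natDegree + 1), ph0 F z (MvPolynomial.pderiv k (P.coeff j)) * w ^ j := by
    intro k
    rw [Polynomial.eval_eq_sum_range' (Nat.lt_succ_of_le (Polynomial.natDegree_map_le.trans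
      (dXi_natDegree P k)))]
    exact sum_congr rfl (fun j _ => by rw [Polynomial.coeff_map, dXi_coeff])
  have e3 : (Polynomial.derivative (P.map (ph0 F z))).eval w =
      ∑ j ∈ range (P.natDegree + 1), ph0 F z (P.coeff j) * (j * w ^ (j - 1)) := by
    have h1 : P.map (ph0 F z) = ∑ j ∈ range (P.natDegree + 1),
        Polynomial.monomial j (ph0 F z (P.coeff j)) := by
      rw [Polynomial.as_sum_range' (P.map (ph0 F z)) (P.natDegree + 1)
        (Nat.lt_succ_of_le Polynomial.natDegree_map_le)]
      exact sum_congr rfl (fun j _ => by rw [Polynomial.coeff_map])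
    rw [h1, Polynomial.derivative_sum, Polynomial.eval_finsetSum]
    refine sum_congr rfl (fun j _ => ?_)
    rw [Polynomial.derivative_monomial, Polynomial.eval_monomial]
    ring
  rw [e1, e3, map_sum]
  simp only [e2, sum_mul]
  rw [sum_comm, ← sum_add_distrib]
  refine sum_congr rfl (fun j _ => ?_)
  rw [Derivation.leibniz, der_mv hD, Derivation.leibniz_pow]
  simp only [smul_eq_mul, nsmul_eq_mul, mul_sum]
  rw [add_comm]
  congr 1
  · exact sum_congr rfl (fun k _ => by ring)
  · ring

/-- a polynomial on which the derivation is the derivative with respect to the variable -/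
def Flow (D : Derivation ℚ ℂ ℂ) (G : Polynomial ℂ) : Prop :=
  ∀ m, D (G.coeff m) = (Polynomial.derivative G).coeff m

theorem Flow.add {D : Derivation ℚ ℂ ℂ} {G H : Polynomial ℂ} (hG : Flow D G) (hH : Flow D H) :
    Flow D (G + H) := by
  intro m
  rw [Polynomial.coeff_add, map_add, hG m, hH m, Polynomial.derivative_add,
    Polynomial.coeff_add]

theorem Flow.mul {D : Derivation ℚ ℂ ℂ} {G H : Polynomial ℂ} (hG : Flow D G) (hH : Flow D H) :
    Flow D (G * H) := by
  intro m
  rw [Polynomial.derivative_mul, Polynomial.coeff_add, Polynomial.coeff_mul,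
    Polynomial.coeff_mul, Polynomial.coeff_mul, map_sum, ← sum_add_distrib]
  refine sum_congr rfl (fun x _ => ?_)
  rw [Derivation.leibniz, hG, hH]
  simp only [smul_eq_mul]
  ring

theorem Flow.C {D : Derivation ℚ ℂ ℂ} {w : ℂ} (hw : D w = 0) :
    Flow D (Polynomial.C w) := by
  intro m
  rw [Polynomial.derivative_C, Polynomial.coeff_zero, Polynomial.coeff_C]
  split_ifs
  · exact hw
  · exact map_zero D

theorem Flow.eq_zero {D : Derivation ℚ ℂ ℂ} {G : Polynomial ℂ} (hG : Flow D G)
    (h0 : G.coeff 0 = 0) : G = 0 := by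
  have h1 : ∀ m, G.coeff m = 0 := by
    intro m
    induction m with
    | zero => exact h0
    | succ m ih =>
      have h2 := hG m
      rw [ih, map_zero, Polynomial.coeff_derivative] at h2
      have h3 : (m : ℂ) + 1 ≠ 0 := Nat.cast_add_one_ne_zero m
      exact (mul_eq_zero.1 h2.symm).resolve_right h3
  ext m
  rw [h1, Polynomial.coeff_zero]

/-- **The algebraic functions which are constant along a line.** -/
theorem line_zero {D : Derivation ℚ ℂ ℂ} (hD : D ∈ DF F) {z u : Fin n → ℂ}
    (hz : ∀ i, D (z i) = u i) (hu : ∀ i, D (u i) = 0) {w : ℂ} (hw : D w = 0)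
    (R : Polynomial (MvPolynomial (Fin n) F)) (h0 : (R.map (ph0 F z)).eval w = 0) (t : ℂ) :
    (R.map (ph0 F (fun i => z i + t * u i))).eval w = 0 := by
  classical
  let θ : MvPolynomial (Fin n) F →+* Polynomial ℂ :=
    MvPolynomial.eval₂Hom (Polynomial.C.comp (algebraMap F ℂ))
      (fun i => Polynomial.C (z i) + Polynomial.C (u i) * Polynomial.X)
  have hθ : ∀ p, Flow D (θ p) := by
    intro p
    induction p using MvPolynomial.induction_on with
    | C b =>
      have h1 : θ (MvPolynomial.C b) = Polynomial.C (algebraMap F ℂ b) := by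
        change MvPolynomial.eval₂Hom _ _ _ = _
        rw [MvPolynomial.eval₂Hom_C]
        rfl
      rw [h1]
      exact Flow.C (hD _ b.2)
    | add p q hp hq =>
      rw [map_add]
      exact hp.add hq
    | mul_X p i hp =>
      rw [map_mul]
      refine hp.mul ?_
      have h1 : θ (MvPolynomial.X i) =
          Polynomial.C (z i) + Polynomial.C (u i) * Polynomial.X := by
        change MvPolynomial.eval₂Hom _ _ _ = _
        rw [MvPolynomial.eval₂Hom_X']
      rw [h1]
      intro m
      rw [Polynomial.derivative_add, Polynomial.derivative_C, zero_add,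
        Polynomial.derivative_C_mul, Polynomial.derivative_X, mul_one, Polynomial.coeff_add,
        Polynomial.coeff_C, Polynomial.coeff_C_mul, Polynomial.coeff_X, Polynomial.coeff_C]
      rcases Nat.eq_zero_or_pos m with hm | hm
      · subst hm
        simp [hz]
      · rw [if_neg hm.ne', zero_add, if_neg hm.ne']
        split_ifs
        · rw [mul_one]
          exact hu i
        · rw [mul_zero, map_zero]
  have hG : Flow D ((R.map θ).eval (Polynomial.C w)) := by
    rw [Polynomial.eval_eq_sum_range]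
    refine Finset.sum_induction _ (Flow D) (fun _ _ h h' => h.add h') ?_ (fun j _ => ?_)
    · rw [← Polynomial.C_0]
      exact Flow.C (map_zero D)
    · rw [Polynomial.coeff_map]
      refine (hθ _).mul ?_
      rw [← Polynomial.C_pow]
      refine Flow.C ?_
      rw [Derivation.leibniz_pow, hw, smul_zero, smul_zero]
  have hev : ∀ s : ℂ, ((R.map θ).eval (Polynomial.C w)).eval s =
      (R.map (ph0 F (fun i => z i + s * u i))).eval w := by
    intro s
    have h1 : (Polynomial.evalRingHom s).comp θ = ph0 F (fun i => z i + s * u i) := by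
      ext y
      · simp [θ, ph0]
      · simp [θ, ph0, mul_comm s]
    rw [← h1, ← Polynomial.map_map]
    have h2 := Polynomial.hom_eval₂ (R.map θ) (RingHom.id _) (Polynomial.evalRingHom s)
      (Polynomial.C w)
    rw [RingHom.comp_id] at h2
    change Polynomial.evalRingHom s ((R.map θ).eval₂ (RingHom.id _) (Polynomial.C w)) = _
    rw [h2, Polynomial.eval₂_eq_eval_map]
    simp
  have hz0 : (R.map θ).eval (Polynomial.C w) = 0 := by
    refine hG.eq_zero ?_
    rw [Polynomial.coeff_zero_eq_eval_zero, hev]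
    simpa using h0
  rw [← hev, hz0, Polynomial.eval_zero]

/-- a number `w` with a differential which is `Y` times the invariant differential -/
def WY (F : IntermediateField ℚ ℂ) (T : Typ) (hT : InF F T) (z w Y : ℂ) : Prop :=
  Y ≠ 0 ∧ (∀ D ∈ DF F, D w = Y * ell T D z) ∧
  (match T, hT with
    | none, _ => w = Y
    | some L, hT => Polynomial.aeval w (kap L hT.1 hT.2) = Y ^ 2)

theorem der_Y {T : Typ} {hT : InF F T} {z w Y : ℂ} (h : WY F T hT z w Y)
    {D : Derivation ℚ ℂ ℂ} (hD : D ∈ DF F) (hw : D w = 0) : D Y = 0 := by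
  cases T with
  | none =>
    have h1 : w = Y := h.2.2
    rw [← h1]
    exact hw
  | some L =>
    have h1 : Polynomial.aeval w (kap L hT.1 hT.2) = Y ^ 2 := h.2.2
    have h2 := congrArg D h1
    rw [Pool.Agent.TH813.Curve.der_aeval hD, hw, mul_zero, Derivation.leibniz_pow] at h2
    simp only [smul_eq_mul, nsmul_eq_mul] at h2
    have h3 : (2 : ℕ) * (Y ^ (2 - 1) * D Y) = 2 * Y * D Y := by
      norm_num
      ring
    rw [h3] at h2
    exact (mul_eq_zero.1 h2.symm).resolve_left (mul_ne_zero two_ne_zero h.1)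

theorem ph0_inj {z : Fin n → ℂ} (h : AlgebraicIndependent F z) :
    Function.Injective (ph0 F z) := h

theorem ai_mono {E : IntermediateField ℚ ℂ} (hE : F ≤ E) {z : Fin n → ℂ}
    (hz : AlgebraicIndependent E z) : AlgebraicIndependent F z := by
  rw [AlgebraicIndependent]
  intro p q hpq
  have h2 : Function.Injective (MvPolynomial.map (σ := Fin n)
      (IntermediateField.inclusion hE).toRingHom) :=
    MvPolynomial.map_injective _ (IntermediateField.inclusion hE).toRingHom.injective
  apply h2
  apply hz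
  have h3 : ∀ p : MvPolynomial (Fin n) F, MvPolynomial.aeval z (MvPolynomial.map
      (IntermediateField.inclusion hE).toRingHom p) = MvPolynomial.aeval z p := by
    intro p
    rw [MvPolynomial.aeval_def, MvPolynomial.eval₂_map, MvPolynomial.aeval_def]
    rfl
  rw [h3, h3]
  exact hpq

/-- **A point satisfies the conditions of the count.** -/
theorem ptCond {T : Fin n → Typ} (hT : ∀ j, InF F (T j)) {r : ℕ}
    (ν : Fin n → (Fin r → ℚ) →ₗ[ℚ] ℂ) (hν : ∀ c, (∀ j, ν j c = 0) → c = 0)
    {P P' : Fin n → Polynomial (MvPolynomial (Fin n) F)}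
    {Q : Fin n → Polynomial (MvPolynomial (Fin n ⊕ Fin n) F)}
    (hG : ∀ j, Good (T j) (hT j) (P j) (P' j) (Q j))
    {x : Fin r → ℚ} {E : IntermediateField ℚ ℂ} (hE : F ≤ E)
    (hEn : ∀ c, (∀ j, Null F (T j) (ν j c)) → ∀ k, ν k c ∈ E)
    (hz : AlgebraicIndependent E (fun j => ν j x)) {w Y : Fin n → ℂ}
    (hwY : ∀ j, WY F (T j) (hT j) (ν j x) (w j) (Y j))
    (hP : ∀ j, ((P j).map (ph0 F (fun j => ν j x))).eval (w j) = 0)
    (hw : (∀ a, ∃ D ∈ DF F, ∀ j, ell (T j) D (ν j x) = if a = j then 1 else 0) ∨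
      ∀ c, (∀ j, Null F (T j) (ν j c)) → c ≠ 0 →
        ∃ j, ∃ t : ℂ, ((P j).map (ph0 F (fun i => ν i x + t * ν i c))).eval (w j) ≠ 0) :
    PtCond F T ν Q x := by
  classical
  have hEF : DF E ≤ DF F := fun D hD y hy => hD y (hE hy)
  have hdd : ∀ a : Fin n, ∃ D ∈ DF E, ∀ i, D (ν i x) = if a = i then 1 else 0 := fun a =>
    exists_derF E hz (fun i => if a = i then 1 else 0)
  choose Dd hDd hdual using hdd
  set z : Fin n → ℂ := fun j => ν j x with hzdef
  have hinj : Function.Injective (ph0 F z) := ph0_inj (ai_mono hE hz)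
  have hC : (ph0 F z).comp MvPolynomial.C = algebraMap F ℂ := by
    ext y
    simp [ph0]
  have hgood := fun j => hG j (ph0 F z) hinj hC (w j) (Y j) (hwY j).1 (hwY j).2.2 (hP j)
  -- the matrix
  let Pd : Fin n → ℂ := fun j =>
    Y j * (Polynomial.derivative ((P' j).map (ph0 F z))).eval (w j)
  have hPd : ∀ j, Pd j ≠ 0 := fun j => mul_ne_zero (hwY j).1 (hgood j).2.1
  let L : Fin n → Fin n → ℂ := fun j i =>
    -((dXi (P' j) i).map (ph0 F z)).eval (w j) / Pd j
  have hL : ∀ j i, L j i * Pd j + ((dXi (P' j) i).map (ph0 F z)).eval (w j) = 0 := by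
    intro j i
    change -((dXi (P' j) i).map (ph0 F z)).eval (w j) / Pd j * Pd j + _ = 0
    rw [div_mul_cancel₀ _ (hPd j), neg_add_cancel]
  have hω : ∀ D ∈ DF F, ∀ j, ell (T j) D (z j) = ∑ i, L j i * D (z i) := by
    intro D hD j
    have h1 := der_eval hD (P' j) z (w j)
    rw [(hgood j).1, map_zero, (hwY j).2.1 D hD] at h1
    apply mul_left_cancel₀ (hPd j)
    have h2 : ∑ k, ((dXi (P' j) k).map (ph0 F z)).eval (w j) * D (z k) =
        -∑ k, Pd j * (L j k * D (z k)) := by
      rw [← sum_neg_distrib]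
      refine sum_congr rfl (fun k _ => ?_)
      linear_combination D (z k) * hL j k
    rw [h2] at h1
    rw [mul_sum]
    change (Y j * (Polynomial.derivative ((P' j).map (ph0 F z))).eval (w j)) * _ = _
    linear_combination -h1
  have hkill : ∀ j, ∀ D ∈ DF F, (∀ i, D (z i) = 0) → ∀ k, D (L j k) = 0 := by
    intro j D hD hDz k
    have h1 : D (w j) = 0 := by
      rw [(hwY j).2.1 D hD, hω D hD]
      rw [sum_eq_zero (fun i _ => by rw [hDz, mul_zero]), mul_zero]
    have h2 : ∀ R : Polynomial (MvPolynomial (Fin n) F),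
        D ((R.map (ph0 F z)).eval (w j)) = 0 := by
      intro R
      rw [der_eval hD, h1, mul_zero, add_zero]
      exact sum_eq_zero (fun i _ => by rw [hDz, mul_zero])
    have h3 : D (Pd j) = 0 := by
      change D (Y j * (Polynomial.derivative ((P' j).map (ph0 F z))).eval (w j)) = 0
      rw [Derivation.leibniz, der_Y (hwY j) hD h1, Polynomial.derivative_map, h2, smul_zero,
        smul_zero, add_zero]
    have h4 := congrArg D (hL j k)
    rw [map_add, map_zero, h2, add_zero, Derivation.leibniz, h3, smul_zero, zero_add,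
      smul_eq_mul] at h4
    exact (mul_eq_zero.1 h4).resolve_left (hPd j)
  refine ⟨Dd, L, fun a => hEF (hDd a), hdual, hω, hkill, fun j => ?_, fun j => ?_,
    fun c hc a k => hDd a _ (hEn c hc k), fun c hc hLc => ?_⟩
  · exact ((hgood j).2.2 (L j) (hL j)).1
  · exact ((hgood j).2.2 (L j) (hL j)).2
  · rcases hw with hw | hw
    · -- the matrix is invertible
      choose Dw hDw hdualw using hw
      have h1 : (of L : Matrix (Fin n) (Fin n) ℂ) *
          (of fun k a => Dw a (z k) : Matrix (Fin n) (Fin n) ℂ) = 1 := by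
        ext j a
        rw [mul_apply, one_apply]
        simp only [of_apply]
        rw [← hω _ (hDw a), hdualw]
        by_cases hja : j = a
        · rw [if_pos hja, if_pos hja.symm]
        · rw [if_neg hja, if_neg (Ne.symm hja)]
      have h2 := mul_eq_one_comm.1 h1
      have h3 : (of L : Matrix (Fin n) (Fin n) ℂ) *ᵥ (fun k => ν k c) = 0 := by
        funext j
        exact hLc j
      have h4 : (fun k => ν k c) = 0 := by
        have h5 := congrArg (fun v => (of fun k a => Dw a (z k) :
          Matrix (Fin n) (Fin n) ℂ) *ᵥ v) h3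
        simp only [mulVec_mulVec, h2, one_mulVec, mulVec_zero] at h5
        exact h5
      exact hν c (fun j => congrFun h4 j)
    · by_contra hc0
      obtain ⟨j, t, hj⟩ := hw c hc hc0
      obtain ⟨D, hD, hDz⟩ := exists_derF E hz (fun i => ν i c)
      apply hj
      refine line_zero (hEF hD) hDz (fun i => hD _ (hEn c hc i)) ?_ (P j) (hP j) t
      rw [(hwY j).2.1 D (hEF hD), hω D (hEF hD)]
      have h3 : ∑ i, L j i * ν i c = 0 := hLc j
      have h4 : ∑ i, L j i * D (z i) = ∑ i, L j i * ν i c :=
        sum_congr rfl (fun i _ => by rw [hDz])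
      rw [h4, h3, mul_zero]

/-- the field generated by `F` and the coordinates of the vectors of `U` all of whose coordinates
are logarithms of algebraic points -/
def LF (F : IntermediateField ℚ ℂ) (T : Fin n → Typ) (U : Submodule ℚ (Fin n → ℂ)) :
    IntermediateField ℚ ℂ :=
  F ⊔ IntermediateField.adjoin ℚ {c | ∃ u ∈ U, (∀ i, Null F (T i) (u i)) ∧ ∃ i, c = u i}

/-- **The count of the points.** -/
theorem count_U {T : Fin n → Typ} (hT : ∀ j, InF F (T j)) (U : Submodule ℚ (Fin n → ℂ))
    [FiniteDimensional ℚ U]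
    {P P' : Fin n → Polynomial (MvPolynomial (Fin n) F)}
    {Q : Fin n → Polynomial (MvPolynomial (Fin n ⊕ Fin n) F)} {m : ℕ} (hm : 1 ≤ m)
    (hG : ∀ j, Good (T j) (hT j) (P j) (P' j) (Q j)) (hB : ∀ j, Bt m (Q j)) :
    {z : Fin n → ℂ | z ∈ U ∧ AlgebraicIndependent (LF F T U) z ∧ ∃ w Y : Fin n → ℂ,
      (∀ j, WY F (T j) (hT j) (z j) (w j) (Y j)) ∧
      (∀ j, ((P j).map (ph0 F z)).eval (w j) = 0) ∧
      ((∀ a, ∃ D ∈ DF F, ∀ j, ell (T j) D (z j) = if a = j then 1 else 0) ∨
        ∀ u ∈ U, (∀ j, Null F (T j) (u j)) → u ≠ 0 →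
          ∃ j, ∃ t : ℂ, ((P j).map (ph0 F (fun i => z i + t * u i))).eval (w j) ≠ 0)}.encard ≤
      ((m * finrank ℚ U).choose (finrank ℚ U) : ℕ) := by
  classical
  set N := (m * finrank ℚ U).choose (finrank ℚ U) with hN
  set e := finBasis ℚ U with he
  let ν : Fin n → (Fin (finrank ℚ U) → ℚ) →ₗ[ℚ] ℂ := fun j =>
    (LinearMap.proj j) ∘ₗ U.subtype ∘ₗ e.equivFun.symm.toLinearMap
  have hνU : ∀ c, (fun j => ν j c) ∈ U := fun c => (e.equivFun.symm c).2
  have hν : ∀ c, (∀ j, ν j c = 0) → c = 0 := by
    intro c hc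
    have h1 : e.equivFun.symm c = 0 := Subtype.ext (funext hc)
    exact (LinearEquiv.map_eq_zero_iff _).1 h1
  set φ : (Fin n → ℂ) → (Fin (finrank ℚ U) → ℚ) := fun z =>
    if h : z ∈ U then e.equivFun ⟨z, h⟩ else 0 with hφ
  have hφz : ∀ z ∈ U, (fun j => ν j (φ z)) = z := by
    intro z hz
    rw [hφ]
    simp only [hz, dite_true]
    funext j
    change ((e.equivFun.symm (e.equivFun ⟨z, hz⟩) : U) : Fin n → ℂ) j = z j
    rw [LinearEquiv.symm_apply_apply]
  by_contra hcon
  rw [not_le] at hcon
  obtain ⟨s, hts, ht⟩ := Set.exists_subset_encard_eq (Order.add_one_le_of_lt hcon)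
  have hfin : s.Finite := by
    rw [← Set.encard_lt_top_iff, ht]
    exact_mod_cast ENat.natCast_lt_top (N + 1)
  have hcard : hfin.toFinset.card = N + 1 := by
    rw [hfin.encard_eq_coe_toFinset_card] at ht
    exact_mod_cast ht
  have hinj : Set.InjOn φ (hfin.toFinset : Set (Fin n → ℂ)) := by
    intro z hz z' hz' h
    rw [← hφz z (hts (hfin.mem_toFinset.1 hz)).1, ← hφz z' (hts (hfin.mem_toFinset.1 hz')).1, h]
  have key := count_q hT ν hν hm hB (hfin.toFinset.image φ) (by
    intro x hx
    obtain ⟨z, hz, rfl⟩ := Finset.mem_image.1 hx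
    obtain ⟨hzU, hai, w, Y, hwY, hP, hw⟩ := hts (hfin.mem_toFinset.1 hz)
    have hzz := hφz z hzU
    have hzj : ∀ j, ν j (φ z) = z j := fun j => congrFun hzz j
    refine ptCond (E := LF F T U) (w := w) (Y := Y) hT ν hν hG le_sup_left ?_ ?_ ?_ ?_ ?_
    · intro c hc k
      exact (le_sup_right : _ ≤ F ⊔ _) (IntermediateField.subset_adjoin _ _
        ⟨fun j => ν j c, hνU c, hc, k, rfl⟩)
    · rw [hzz]
      exact hai
    · intro j
      rw [hzj]
      exact hwY j
    · intro j
      rw [hzz]
      exact hP j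
    · rcases hw with hw | hw
      · refine Or.inl (fun a => ?_)
        obtain ⟨D, hD, hD'⟩ := hw a
        exact ⟨D, hD, fun j => by rw [hzj]; exact hD' j⟩
      · refine Or.inr (fun c hc hc0 => ?_)
        obtain ⟨j, t, hj⟩ := hw _ (hνU c) hc (fun h => hc0 (hν c (fun j => congrFun h j)))
        refine ⟨j, t, ?_⟩
        have e : (fun i => ν i (φ z) + t * ν i c) = fun i => z i + t * ν i c :=
          funext (fun i => by rw [hzj])
        rw [e]
        exact hj)
  rw [Finset.card_image_of_injOn hinj, hcard] at key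
  omega

end Pool.Agent.V8H25.AS
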