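import Mathlib
import Pool.Agent.V8H25.AS.Main

/-!
# The exponential case
-/

set_option autoImplicit false

open Finset Module

noncomputable section

namespace Pool.Agent.V8H25.AS

open Pool.Agent.W252 Pool.Agent.W669.Gel
open Pool.Agent.TH813.MixSys Pool.Agent.TH813.CurveG Pool.Agent.TH813.ZtFin
open Pool.Agent.TH813.Rel (DF exists_derF)

variable {F : IntermediateField ℚ ℂ} {n : ℕ}

/-- The field generated by `F` and the coordinates of the vectors `u` of `U` such that all the
numbers `e^(u_i)` are algebraic over `F`. -/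
def LogField (F : IntermediateField ℚ ℂ) (U : Submodule ℚ (Fin n → ℂ)) :
    IntermediateField ℚ ℂ :=
  F ⊔ IntermediateField.adjoin ℚ
    {c | ∃ u ∈ U, (∀ i, IsAlgebraic F (Complex.exp (u i))) ∧ ∃ i, c = u i}

/-- The point `(z, c e^z)` satisfies the equations `P_j(z, c_j e^(z_j)) = 0`, for numbers `c_j`
which are algebraic over `F` and different from zero. -/
def IsSolution (F : IntermediateField ℚ ℂ) (P : Fin n → Polynomial (MvPolynomial (Fin n) F))
    (z c : Fin n → ℂ) : Prop :=
  ∀ j, c j ≠ 0 ∧ IsAlgebraic F (c j) ∧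
    (P j).eval₂ (MvPolynomial.aeval z).toRingHom (c j * Complex.exp (z j)) = 0

/-- The set of the equations contains a line `(z + t u, w)`, `t` in `ℂ`, where `u ≠ 0` is a vector
of `U` such that all the numbers `e^(u_i)` are algebraic over `F`. -/
def LineThrough (F : IntermediateField ℚ ℂ) (U : Submodule ℚ (Fin n → ℂ))
    (P : Fin n → Polynomial (MvPolynomial (Fin n) F)) (z w : Fin n → ℂ) : Prop :=
  ∃ u ∈ U, u ≠ 0 ∧ (∀ i, IsAlgebraic F (Complex.exp (u i))) ∧
    ∀ (t : ℂ) (j : Fin n),
      (P j).eval₂ (MvPolynomial.aeval (fun i => z i + t * u i)).toRingHom (w j) = 0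

theorem wy_exp {c z : ℂ} (hc0 : c ≠ 0) (hc : IsAlgebraic F c) (hT : InF F none) :
    WY F none hT z (c * Complex.exp z) (c * Complex.exp z) := by
  refine ⟨mul_ne_zero hc0 (Complex.exp_ne_zero _), fun D hD => ?_, rfl⟩
  change D (c * Complex.exp z) = c * Complex.exp z * dlog D z
  unfold dlog
  rw [Derivation.leibniz, killed_of_alg hc D hD, smul_zero, add_zero, smul_eq_mul,
    mul_assoc, mul_div_cancel₀ _ (Complex.exp_ne_zero _)]

theorem toHom_eq (z : Fin n → ℂ) :
    (MvPolynomial.aeval z : MvPolynomial (Fin n) F →ₐ[F] ℂ).toRingHom = ph0 F z := by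
  ext y
  · simp [ph0]
  · simp [ph0]

/-- **The count for exponential systems.** -/
theorem exp_count (U : Submodule ℚ (Fin n → ℂ)) [FiniteDimensional ℚ U]
    (P : Fin n → Polynomial (MvPolynomial (Fin n) F)) (hP : ∀ j, P j ≠ 0) (a b : ℕ)
    (ha : ∀ j i, ((P j).coeff i).totalDegree ≤ a) (hb : ∀ j, (P j).natDegree ≤ b) :
    {z : Fin n → ℂ | z ∈ U ∧ AlgebraicIndependent (LogField F U) z ∧
      ∃ c : Fin n → ℂ, IsSolution F P z c ∧
      (AlgebraicIndependent F (fun j => Complex.exp (z j)) ∨
        ¬ LineThrough F U P z (fun j => c j * Complex.exp (z j)))}.encard ≤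
      (((2 * a + 1) * b * finrank ℚ U).choose (finrank ℚ U) : ℕ) := by
  classical
  rcases Nat.eq_zero_or_pos n with hn | hn
  · subst hn
    have h1 : finrank ℚ U = 0 := by
      have : Subsingleton U := ⟨fun x y => Subtype.ext (Subsingleton.elim _ _)⟩
      exact finrank_zero_of_subsingleton
    rw [h1, mul_zero, Nat.choose_self]
    rw [Nat.cast_one, Set.encard_le_one_iff]
    intro x y _ _
    exact Subsingleton.elim _ _
  let i₀ : Fin n := ⟨0, hn⟩
  have hFL : F ≤ LogField F U := le_sup_left
  rcases Nat.eq_zero_or_pos b with hb0 | hb1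
  · have hempty : ∀ S : Set (Fin n → ℂ), (∀ z, z ∉ S) → ∀ N : ℕ, S.encard ≤ (N : ℕ∞) := by
      intro S hS N
      rw [Set.eq_empty_iff_forall_notMem.2 hS, Set.encard_empty]
      exact zero_le
    apply hempty
    rintro z ⟨_, hz, c, hs, _⟩
    obtain ⟨_, _, h⟩ := hs i₀
    have h1 : (P i₀).natDegree = 0 := Nat.le_zero.1 ((hb i₀).trans hb0.le)
    rw [Polynomial.eq_C_of_natDegree_eq_zero h1, Polynomial.eval₂_C, toHom_eq] at h
    have h2 := (injective_iff_map_eq_zero (ph0 F z)).1 (ph0_inj (ai_mono hFL hz)) _ h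
    apply hP i₀
    rw [Polynomial.eq_C_of_natDegree_eq_zero h1, h2, Polynomial.C_0]
  -- the main case
  have hT : ∀ j : Fin n, InF F ((fun _ => none : Fin n → Typ) j) := fun _ => trivial
  have hg := fun j => exists_good (hP j) (ha j) (hb j) hb1 (hT j)
  choose P' Q hG hB using hg
  have hm : 1 ≤ (2 * a + 1) * b := Nat.mul_pos (Nat.succ_pos _) hb1
  have key := count_U (T := fun _ => none) hT U (P := P) hm hG hB
  refine le_trans (Set.encard_le_encard ?_) key
  rintro z ⟨hzU, hz, c, hs, hw⟩
  refine ⟨hzU, hz, fun j => c j * Complex.exp (z j), fun j => c j * Complex.exp (z j),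
    fun j => wy_exp (hs j).1 (hs j).2.1 (hT j), fun j => ?_, ?_⟩
  · rw [← Polynomial.eval₂_eq_eval_map, ← toHom_eq]
    exact (hs j).2.2
  · rcases hw with hw | hw
    · refine Or.inl (fun a => ?_)
      obtain ⟨D, hD, hD'⟩ := exists_derF F hw (fun j => if a = j then Complex.exp (z j) else 0)
      refine ⟨D, hD, fun j => ?_⟩
      change dlog D (z j) = _
      unfold dlog
      rw [hD']
      split_ifs
      · exact div_self (Complex.exp_ne_zero _)
      · exact zero_div _
    · refine Or.inr (fun u hu hun hu0 => ?_)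
      by_contra hcon
      push Not at hcon
      refine hw ⟨u, hu, hu0, hun, fun t j => ?_⟩
      rw [toHom_eq, Polynomial.eval₂_eq_eval_map]
      exact hcon j t

/-- the translates of a generic point by a point of the field -/
theorem ai_translate {E : IntermediateField ℚ ℂ} {z v : Fin n → ℂ}
    (hz : AlgebraicIndependent E z) (hv : ∀ i, v i ∈ E) :
    AlgebraicIndependent E (fun i => z i + v i) := by
  rw [algebraicIndependent_iff] at hz ⊢
  intro p hp
  have h1 : MvPolynomial.aeval z (MvPolynomial.bind₁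
      (fun i => MvPolynomial.X i + MvPolynomial.C (⟨v i, hv i⟩ : E)) p) = 0 := by
    rw [MvPolynomial.aeval_bind₁]
    have h2 : (fun i => MvPolynomial.aeval z
        (MvPolynomial.X i + MvPolynomial.C (⟨v i, hv i⟩ : E))) = fun i => z i + v i := by
      funext i
      simp only [map_add, MvPolynomial.aeval_X, MvPolynomial.aeval_C]
      rfl
    rw [h2]
    exact hp
  have h3 := hz _ h1
  have h4 := congrArg (MvPolynomial.bind₁
    (fun i => MvPolynomial.X i - MvPolynomial.C (⟨v i, hv i⟩ : E))) h3
  rw [MvPolynomial.bind₁_bind₁, map_zero] at h4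
  have h5 : (fun i => MvPolynomial.bind₁
      (fun i => MvPolynomial.X i - MvPolynomial.C (⟨v i, hv i⟩ : E))
      (MvPolynomial.X i + MvPolynomial.C (⟨v i, hv i⟩ : E))) = MvPolynomial.X := by
    funext i
    rw [map_add, MvPolynomial.bind₁_X_right, MvPolynomial.bind₁_C_right, sub_add_cancel]
  rw [h5, MvPolynomial.bind₁_X_left] at h4
  exact h4

/-- **The points on a line.** -/
theorem exp_line (U : Submodule ℚ (Fin n → ℂ))
    (P : Fin n → Polynomial (MvPolynomial (Fin n) F)) {z c : Fin n → ℂ} (hzU : z ∈ U)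
    (hz : AlgebraicIndependent (LogField F U) z) (hs : IsSolution F P z c)
    (hl : LineThrough F U P z (fun j => c j * Complex.exp (z j))) :
    {z : Fin n → ℂ | z ∈ U ∧ AlgebraicIndependent (LogField F U) z ∧
      ∃ c : Fin n → ℂ, IsSolution F P z c}.Infinite := by
  obtain ⟨u, huU, hu0, hu, hl⟩ := hl
  obtain ⟨i, hi⟩ : ∃ i, u i ≠ 0 := by
    by_contra hcon
    push Not at hcon
    exact hu0 (funext hcon)
  refine Set.infinite_of_injective_forall_mem (f := fun (k : ℕ) => fun i => z i + k * u i) ?_ ?_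
  · intro k l hkl
    have h1 := congrFun hkl i
    simp only [add_right_inj] at h1
    exact_mod_cast mul_right_cancel₀ hi h1
  · intro k
    have hkU : (fun i => (k : ℂ) * u i) ∈ U := by
      have h1 : (fun i => (k : ℂ) * u i) = k • u := by
        funext i
        simp
      rw [h1]
      exact U.smul_of_tower_mem k huU
    refine ⟨?_, ?_, fun j => c j * (Complex.exp (u j))⁻¹ ^ k, fun j => ⟨?_, ?_, ?_⟩⟩
    · exact U.add_mem hzU hkU
    · refine ai_translate hz (fun i => ?_)
      have h1 : u i ∈ LogField F U :=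
        (le_sup_right : _ ≤ F ⊔ _) (IntermediateField.subset_adjoin _ _ ⟨u, huU, hu, i, rfl⟩)
      exact mul_mem (natCast_mem _ k) h1
    · exact mul_ne_zero (hs j).1 (pow_ne_zero _ (inv_ne_zero (Complex.exp_ne_zero _)))
    · exact (hs j).2.1.mul ((hu j).inv.pow k)
    · have h1 := hl k j
      have h2 : c j * (Complex.exp (u j))⁻¹ ^ k * Complex.exp (z j + k * u j) =
          c j * Complex.exp (z j) := by
        rw [Complex.exp_add, Complex.exp_nat_mul]
        have h3 : (Complex.exp (u j))⁻¹ ^ k * Complex.exp (u j) ^ k = 1 := by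
          rw [← mul_pow, inv_mul_cancel₀ (Complex.exp_ne_zero _), one_pow]
        linear_combination c j * Complex.exp (z j) * h3
      rw [h2]
      exact h1

end Pool.Agent.V8H25.AS
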